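import Pool.Agent.Q177.AW.Fam

/-! The block given by a family. -/

set_option autoImplicit false

universe u v

namespace Q177.AW

variable {A : Type u} [CStarAlgebra A]

/-- the properties of a block `E + G + q` for `T` -/
structure Block (T E G q W Y : A) : Prop where
  projE : IsStarProjection E
  projG : IsStarProjection G
  projq : IsStarProjection q
  EG : E * G = 0
  Eq : E * q = 0
  Gq : G * q = 0
  low : (1 - (E + G + q)) * T * E = 0
  right : G * T * (1 - (E + G + q)) = 0
  EY : E * Y = Y
  YG : Y * G = Y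
  YTE : Y * T * E = E
  GTY : G * T * Y = G
  w1 : star W * W = q
  w2 : IsStarProjection (W * star W)
  w3 : (W * star W) * G = W * star W

theorem block_of_good (hA : IsAWStarAlgebra A) {T : A} {C : ℝ} {X : Set (Mem A)}
    (hX : Good T C X) : ∃ E G q W Y : A, Block T E G q W Y ∧ Dom X (E + G + q) ∧
      ∀ s, IsStarProjection s → Dom X s → (E + G + q) * s = E + G + q := by
  let e : X → A := fun m => m.1.E
  let g : X → A := fun m => m.1.G
  let p : X → A := fun m => m.1.q
  have he : Orth e := ⟨fun i => hX.projE i i.2, fun i j hij => hX.orthE i i.2 j j.2 fun h =>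
    hij (Subtype.ext h)⟩
  have hg : Orth g := ⟨fun i => hX.projG i i.2, fun i j hij => hX.orthG i i.2 j j.2 fun h =>
    hij (Subtype.ext h)⟩
  have hp : Orth p := ⟨fun i => hX.projq i i.2, fun i j hij => hX.orthq i i.2 j j.2 fun h =>
    hij (Subtype.ext h)⟩
  obtain ⟨E, hE⟩ := exists_isSup hA he
  obtain ⟨G, hG⟩ := exists_isSup hA hg
  obtain ⟨q, hq⟩ := exists_isSup hA hp
  have heg : ∀ i j, e i * g j = 0 := fun i j => hX.EG i i.2 j j.2
  have hep : ∀ i j, e i * p j = 0 := fun i j => hX.Eq i i.2 j j.2
  have hgp : ∀ i j, g i * p j = 0 := fun i j => hX.Gq i i.2 j j.2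
  have eG : ∀ i, e i * G = 0 := fun i => hG.mul_eq_zero' hA hg (heg i)
  have eq' : ∀ i, e i * q = 0 := fun i => hq.mul_eq_zero' hA hp (hep i)
  have gq : ∀ i, g i * q = 0 := fun i => hq.mul_eq_zero' hA hp (hgp i)
  have EG : E * G = 0 := hE.mul_eq_zero hA he eG
  have Eq : E * q = 0 := hE.mul_eq_zero hA he eq'
  have Gq : G * q = 0 := hG.mul_eq_zero hA hg gq
  have GE : G * E = 0 := mul_eq_zero_symm hE.proj hG.proj EG
  have qE : q * E = 0 := mul_eq_zero_symm hE.proj hq.proj Eq
  have qG : q * G = 0 := mul_eq_zero_symm hG.proj hq.proj Gq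
  have hS : IsStarProjection (E + G + q) := by
    refine (hE.proj.add hG.proj EG).add hq.proj ?_
    rw [add_mul, Eq, Gq, add_zero]
  have dom : Dom X (E + G + q) := by
    intro n hn
    have i : X := ⟨n, hn⟩
    refine ⟨?_, ?_, ?_⟩
    · have h1 : n.E * E = n.E := hE.le ⟨n, hn⟩
      have h2 : n.E * G = 0 := eG ⟨n, hn⟩
      have h3 : n.E * q = 0 := eq' ⟨n, hn⟩
      rw [mul_add, mul_add, h1, h2, h3, add_zero, add_zero]
    · have h1 : n.G * G = n.G := hG.le ⟨n, hn⟩
      have h2 : E * n.G = 0 := hE.mul_eq_zero hA he fun j => heg j ⟨n, hn⟩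
      have h2' : n.G * E = 0 := mul_eq_zero_symm hE.proj (hX.projG n hn) h2
      have h3 : n.G * q = 0 := gq ⟨n, hn⟩
      rw [mul_add, mul_add, h1, h2', h3, add_zero, zero_add]
    · have h1 : n.q * q = n.q := hq.le ⟨n, hn⟩
      have h2 : E * n.q = 0 := hE.mul_eq_zero hA he fun j => hep j ⟨n, hn⟩
      have h2' : n.q * E = 0 := mul_eq_zero_symm hE.proj (hX.projq n hn) h2
      have h3 : G * n.q = 0 := hG.mul_eq_zero hA hg fun j => hgp j ⟨n, hn⟩
      have h3' : n.q * G = 0 := mul_eq_zero_symm hG.proj (hX.projq n hn) h3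
      rw [mul_add, mul_add, h1, h2', h3', zero_add, zero_add]
  have least : ∀ s, IsStarProjection s → Dom X s → (E + G + q) * s = E + G + q := by
    intro s hs hd
    rw [add_mul, add_mul, hE.least s hs fun i => (hd i i.2).1,
      hG.least s hs fun i => (hd i i.2).2.1, hq.least s hs fun i => (hd i i.2).2.2]
  have low : (1 - (E + G + q)) * T * E = 0 :=
    hE.mul_eq_zero' hA he fun i => hX.dom1 i i.2 _ hS dom
  have right : G * T * (1 - (E + G + q)) = 0 := by
    rw [mul_assoc]
    refine hG.mul_eq_zero hA hg fun i => ?_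
    rw [← mul_assoc]
    exact hX.dom2 i i.2 _ hS dom
  -- the equivalence of `q` with a part of `G`
  let r : X → A := fun m => m.1.w * star m.1.w
  have rg : ∀ i, r i * g i = r i := fun i => hX.w3 i i.2
  have gr : ∀ i, g i * r i = r i := fun i =>
    star_mul_eq (hX.w2 i i.2) (hg.proj i) (hX.w2 i i.2) (rg i)
  have hr : Orth r := by
    refine ⟨fun i => hX.w2 i i.2, fun i j hij => ?_⟩
    rw [← rg i, ← gr j, mul_assoc, ← mul_assoc (g i), hg.orth i j hij, zero_mul, mul_zero]
  obtain ⟨R, hR⟩ := exists_isSup hA hr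
  have hpr : ∀ i j, p i * r j = 0 := by
    intro i j
    rw [← gr j, ← mul_assoc, mul_eq_zero_symm (hg.proj j) (hp.proj i) (hgp j i), zero_mul]
  obtain ⟨W, hW1, hW2⟩ := orth_additive hA (v := fun m : X => m.1.w) hp hr hpr
    (fun i => hX.w1 i i.2) (fun i => rfl) hq hR
  have hRG : R * G = R := hR.least G hG.proj fun i => by
    rw [← rg i, mul_assoc, hG.le i]
  -- the block diagonal part
  let x : X → A := fun m => g m * T * e m
  have GTe : ∀ i, G * T * e i = x i := by
    intro i
    have h1 : G * (G * T * e i - x i) = 0 := by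
      refine hG.mul_eq_zero hA hg fun j => ?_
      have h2 : g j * (G * T * e i) = g j * T * e i := by
        rw [← mul_assoc, ← mul_assoc, hG.le j]
      have h3 : g j * x i = (g j * g i) * T * e i := by simp only [x, mul_assoc]
      rw [mul_sub, h2, h3]
      by_cases hij : j = i
      · subst hij
        rw [(hg.proj j).isIdempotentElem.eq, sub_self]
      · rw [hg.orth j i hij, zero_mul, zero_mul, sub_zero]
        exact hX.off j j.2 i i.2 fun h => hij (Subtype.ext h)
    have h2 : G * (G * T * e i) = G * T * e i := by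
      rw [← mul_assoc, ← mul_assoc, hG.proj.isIdempotentElem.eq]
    have h3 : G * x i = x i := by
      simp only [x]
      rw [← mul_assoc, ← mul_assoc, hG.symm_le hg i]
    rw [mul_sub, h2, h3, sub_eq_zero] at h1
    exact h1
  have gTE : ∀ i, g i * T * E = x i := by
    intro i
    have h1 : (g i * T * E - x i) * E = 0 := by
      refine hE.mul_eq_zero' hA he fun j => ?_
      have h2 : g i * T * E * e j = g i * T * e j := by
        rw [mul_assoc, hE.symm_le he j]
      have h3 : x i * e j = g i * T * (e i * e j) := by simp only [x, mul_assoc]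
      rw [sub_mul, h2, h3]
      by_cases hij : i = j
      · subst hij
        rw [(he.proj i).isIdempotentElem.eq, sub_self]
      · rw [he.orth i j hij, mul_zero, sub_zero]
        exact hX.off i i.2 j j.2 fun h => hij (Subtype.ext h)
    have h2 : g i * T * E * E = g i * T * E := by
      rw [mul_assoc, hE.proj.isIdempotentElem.eq]
    have h3 : x i * E = x i := by
      simp only [x]
      rw [mul_assoc, hE.le i]
    rw [sub_mul, h2, h3, sub_eq_zero] at h1
    exact h1
  choose y hy1 hy2 hy3 hy4 hy5 using fun i : X => hX.inv i i.2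
  have yx : ∀ i, y i * x i = e i := fun i => by
    show y i * (g i * T * e i) = e i
    rw [← mul_assoc, ← mul_assoc]
    show y i * i.1.G * T * i.1.E = i.1.E
    rw [hy3, hy4]
  have xy : ∀ i, x i * y i = g i := fun i => by
    show (i.1.G * T * i.1.E) * y i = i.1.G
    rw [mul_assoc, hy2, hy5]
  have gx : ∀ i, g i * x i = x i := fun i => by
    simp only [x]
    rw [← mul_assoc, ← mul_assoc, (hg.proj i).isIdempotentElem.eq]
  have xe : ∀ i, x i * e i = x i := fun i => by
    simp only [x]
    rw [mul_assoc, (he.proj i).isIdempotentElem.eq]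
  have yg : ∀ i, y i * g i = y i := fun i => hy3 i
  have ey : ∀ i, e i * y i = y i := fun i => hy2 i
  have xs : ∀ i, star (x i) * g i = star (x i) := fun i => by
    have := congrArg star (gx i)
    rwa [star_mul, (hg.proj i).isSelfAdjoint.star_eq] at this
  set Xb := G * T * E with hXb
  have GX : G * Xb = Xb := by
    rw [hXb, ← mul_assoc, ← mul_assoc, hG.proj.isIdempotentElem.eq]
  have XE : Xb * E = Xb := by
    rw [hXb, mul_assoc, hE.proj.isIdempotentElem.eq]
  have Xe : ∀ i, Xb * e i = x i := fun i => by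
    rw [hXb, mul_assoc, hE.symm_le he i, GTe]
  have gX : ∀ i, g i * Xb = x i := fun i => by
    rw [hXb, ← mul_assoc, ← mul_assoc, hG.le i, gTE]
  have sXg : ∀ i, star Xb * g i = star (x i) := fun i => by
    have := congrArg star (gX i)
    rwa [star_mul, (hg.proj i).isSelfAdjoint.star_eq] at this
  have esX : ∀ i, e i * star Xb = star (x i) := fun i => by
    have := congrArg star (Xe i)
    rwa [star_mul, (he.proj i).isSelfAdjoint.star_eq] at this
  have EsX : E * star Xb = star Xb := by
    have := congrArg star XE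
    rwa [star_mul, hE.proj.isSelfAdjoint.star_eq] at this
  have sXG : star Xb * G = star Xb := by
    have := congrArg star GX
    rwa [star_mul, hG.proj.isSelfAdjoint.star_eq] at this
  have A1 : ∀ i, star Xb * Xb * e i = star (x i) * x i := fun i => by
    calc star Xb * Xb * e i = star Xb * x i := by rw [mul_assoc, Xe]
      _ = star Xb * (g i * x i) := by rw [gx]
      _ = star (x i) * x i := by rw [← mul_assoc, sXg]
  have A2 : ∀ i, e i * (star Xb * Xb) = star (x i) * x i := fun i => by
    calc e i * (star Xb * Xb) = star (x i) * Xb := by rw [← mul_assoc, esX]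
      _ = (star (x i) * g i) * Xb := by rw [xs]
      _ = star (x i) * x i := by rw [mul_assoc, gX]
  have ex : ∀ i, e i * star (x i) = star (x i) := fun i => by
    have := congrArg star (xe i)
    rwa [star_mul, (he.proj i).isSelfAdjoint.star_eq] at this
  have B1 : ∀ i, Xb * star Xb * g i = x i * star (x i) := fun i => by
    calc Xb * star Xb * g i = Xb * star (x i) := by rw [mul_assoc, sXg]
      _ = Xb * (e i * star (x i)) := by rw [ex]
      _ = x i * star (x i) := by rw [← mul_assoc, Xe]
  have B2 : ∀ i, g i * (Xb * star Xb) = x i * star (x i) := fun i => by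
    calc g i * (Xb * star Xb) = x i * star Xb := by rw [← mul_assoc, gX]
      _ = (x i * e i) * star Xb := by rw [xe]
      _ = x i * star (x i) := by rw [mul_assoc, esX]
  -- invertibility of `Xb* Xb` and `Xb Xb*`
  obtain ⟨k, hk1, hk2, hk3, hk4⟩ := sup_invertible hA he hE (h := star Xb * Xb)
    (by simp) (by rw [mul_assoc, XE])
    (fun i => by rw [A1, A2]) (C * C)
    (fun i => by
      refine ⟨y i * star (y i), ?_, ?_⟩
      · refine (norm_mul_le _ _).trans ?_
        rw [norm_star]
        exact mul_le_mul (hy1 i) (hy1 i) (norm_nonneg _) ((norm_nonneg _).trans (hy1 i))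
      · have h2 : star (y i) * star (x i) = g i := by
          rw [← star_mul, xy, (hg.proj i).isSelfAdjoint.star_eq]
        rw [A1, mul_assoc, ← mul_assoc (star (y i)), h2, gx, yx])
  obtain ⟨k', hk1', hk2', hk3', hk4'⟩ := sup_invertible hA hg hG (h := Xb * star Xb)
    (by simp) (by rw [mul_assoc, sXG])
    (fun i => by rw [B1, B2]) (C * C)
    (fun i => by
      refine ⟨star (y i) * y i, ?_, ?_⟩
      · refine (norm_mul_le _ _).trans ?_
        rw [norm_star]
        exact mul_le_mul (hy1 i) (hy1 i) (norm_nonneg _) ((norm_nonneg _).trans (hy1 i))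
      · have h2 : star (y i) * star (x i) = g i := by
          rw [← star_mul, xy, (hg.proj i).isSelfAdjoint.star_eq]
        rw [B1, mul_assoc, ← mul_assoc (y i), yx, ex, h2])
  set Y := k * star Xb with hY
  have hEY : E * Y = Y := by rw [hY, ← mul_assoc, hk4]
  have hYG : Y * G = Y := by rw [hY, mul_assoc, sXG]
  have hYX : Y * Xb = E := by rw [hY, mul_assoc, hk1]
  have hXY : Xb * Y = G := by
    have h1 : (Xb * Y) * (Xb * star Xb) = Xb * star Xb := by
      rw [mul_assoc, ← mul_assoc Y, hYX, EsX]
    have h2 := congrArg (fun z => z * k') h1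
    simp only [mul_assoc] at h2
    rw [← mul_assoc Xb (star Xb) k', hk2', hYG] at h2
    exact h2
  refine ⟨E, G, q, W, Y, ⟨hE.proj, hG.proj, hq.proj, EG, Eq, Gq, low, right, hEY, hYG, ?_, ?_,
    hW1, by rw [hW2]; exact hR.proj, by rw [hW2]; exact hRG⟩, dom, least⟩
  · calc Y * T * E = (Y * G) * T * E := by rw [hYG]
      _ = Y * Xb := by simp only [hXb, mul_assoc]
      _ = E := hYX
  · rw [← hEY, ← mul_assoc]
    exact hXY

end Q177.AW
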