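import Pool.Agent.Q177.AW.Simple

/-! Suprema of orthogonal families of projections. -/

set_option autoImplicit false

universe u v

namespace Q177.AW

variable {A : Type u} [CStarAlgebra A]

attribute [local instance] CStarAlgebra.spectralOrder CStarAlgebra.spectralOrderedRing

/-- `E` is the least upper bound of the projections `e i`. -/
structure IsSup {ι : Type v} (e : ι → A) (E : A) : Prop where
  proj : IsStarProjection E
  le : ∀ i, e i * E = e i
  least : ∀ f : A, IsStarProjection f → (∀ i, e i * f = e i) → E * f = E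

/-- Orthogonal families of projections. -/
structure Orth {ι : Type v} (e : ι → A) : Prop where
  proj : ∀ i, IsStarProjection (e i)
  orth : ∀ i j, i ≠ j → e i * e j = 0

theorem star_mul_eq {p q r : A} (hp : IsStarProjection p) (hq : IsStarProjection q)
    (hr : IsStarProjection r) (h : p * q = r) : q * p = r := by
  have := congrArg star h
  rwa [star_mul, hp.isSelfAdjoint.star_eq, hq.isSelfAdjoint.star_eq,
    hr.isSelfAdjoint.star_eq] at this

theorem mul_eq_zero_symm {p q : A} (hp : IsStarProjection p) (hq : IsStarProjection q)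
    (h : p * q = 0) : q * p = 0 :=
  star_mul_eq hp hq (IsStarProjection.zero A) h

theorem mul_eq_self_symm {p q : A} (hp : IsStarProjection p) (hq : IsStarProjection q)
    (h : p * q = p) : q * p = p :=
  star_mul_eq hp hq hp h

theorem exists_isSup (hA : IsAWStarAlgebra A) {ι : Type v} {e : ι → A} (he : Orth e) :
    ∃ E, IsSup e E := by
  obtain ⟨E, h1, h2, h3⟩ := hA.exists_lub (Set.range e) (by
    rintro _ ⟨i, rfl⟩; exact he.proj i) (by
    rintro _ ⟨i, rfl⟩ _ ⟨j, rfl⟩ hne
    exact he.orth i j fun h => hne (by rw [h]))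
  exact ⟨E, h1, fun i => h2 _ ⟨i, rfl⟩, fun f hf h => h3 f hf (by
    rintro _ ⟨i, rfl⟩; exact h i)⟩

/-- The annihilation lemma. -/
theorem IsSup.mul_eq_zero (hA : IsAWStarAlgebra A) {ι : Type v} {e : ι → A} {E : A}
    (hE : IsSup e E) (he : Orth e) {x : A} (hx : ∀ i, e i * x = 0) : E * x = 0 := by
  set z := x * star x with hz
  have hez : ∀ i, e i * z = 0 := fun i => by rw [hz, ← mul_assoc, hx i, zero_mul]
  have hzs : star z = z := by simp [hz]
  have hze : ∀ i, z * e i = 0 := fun i => by
    have := congrArg star (hez i)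
    rwa [star_mul, hzs, (he.proj i).isSelfAdjoint.star_eq, star_zero] at this
  obtain ⟨B, hB, hX, hB'⟩ := exists_masa (insert z (Set.range e)) (by
    rintro y (rfl | ⟨i, rfl⟩)
    · rw [hzs]; exact Set.mem_insert _ _
    · rw [(he.proj i).isSelfAdjoint.star_eq]; exact Set.mem_insert_of_mem _ ⟨i, rfl⟩) (by
    rintro y (rfl | ⟨i, rfl⟩) y' (rfl | ⟨j, rfl⟩)
    · rfl
    · rw [hze, hez]
    · rw [hze, hez]
    · by_cases hij : i = j
      · rw [hij]
      · rw [he.orth i j hij, he.orth j i (Ne.symm hij)])
  have hzB : z ∈ B := hX (Set.mem_insert _ _)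
  have heB : ∀ i, e i ∈ B := fun i => hX (Set.mem_insert_of_mem _ ⟨i, rfl⟩)
  have hzE : z * E = 0 := by
    rw [← norm_le_zero_iff]
    refine le_of_forall_pos_le_add fun t ht => ?_
    obtain ⟨f, k, hf, hfB, hkB, h1, h2, h3, h4⟩ := exists_spectral hA hB hB' hzB ht
    have h5 : ∀ i, e i * (1 - f) = e i := fun i => by
      rw [mul_sub, mul_one, ← h1, ← mul_assoc, hez, zero_mul, sub_zero]
    have h6 : E * (1 - f) = E := hE.least _ hf.one_sub h5
    have h7 : (1 - f) * E = E := mul_eq_self_symm hE.proj hf.one_sub h6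
    rw [zero_add]
    calc ‖z * E‖ = ‖z * (1 - f) * E‖ := by rw [mul_assoc z, h7]
      _ ≤ ‖z * (1 - f)‖ * ‖E‖ := norm_mul_le _ _
      _ ≤ t * 1 := by gcongr; exact hE.proj.norm_le
      _ = t := mul_one t
  have h8 : (E * x) * star (E * x) = 0 := by
    rw [star_mul, hE.proj.isSelfAdjoint.star_eq, mul_assoc, ← mul_assoc x, ← hz, hzE, mul_zero]
  exact (CStarRing.mul_star_self_eq_zero_iff _).1 h8

theorem IsSup.mul_eq_zero' (hA : IsAWStarAlgebra A) {ι : Type v} {e : ι → A} {E : A}
    (hE : IsSup e E) (he : Orth e) {x : A} (hx : ∀ i, x * e i = 0) : x * E = 0 := by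
  have h := hE.mul_eq_zero hA he (x := star x) fun i => by
    have := congrArg star (hx i)
    rwa [star_mul, (he.proj i).isSelfAdjoint.star_eq, star_zero] at this
  have := congrArg star h
  rwa [star_mul, star_star, hE.proj.isSelfAdjoint.star_eq, star_zero] at this

/-- The supremum commutes with everything that commutes (with its adjoint) with the family. -/
theorem IsSup.comm (hA : IsAWStarAlgebra A) {ι : Type v} {e : ι → A} {E : A}
    (hE : IsSup e E) (he : Orth e) {x : A} (hx : ∀ i, x * e i = e i * x)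
    (hx' : ∀ i, star x * e i = e i * star x) : x * E = E * x := by
  have key : ∀ y : A, (∀ i, y * e i = e i * y) → (1 - E) * y * E = 0 := by
    intro y hy
    refine hE.mul_eq_zero' hA he fun i => ?_
    rw [mul_assoc, hy, ← mul_assoc, sub_mul, one_mul,
      mul_eq_self_symm (he.proj i) hE.proj (hE.le i), sub_self, zero_mul]
  have h1 := key x hx
  have h2 := congrArg star (key (star x) hx')
  rw [star_mul, star_mul, star_star, star_zero, hE.proj.isSelfAdjoint.star_eq,
    hE.proj.one_sub.isSelfAdjoint.star_eq] at h2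
  have h3 : x * E = E * x * E := by
    rw [sub_mul, sub_mul, one_mul, sub_eq_zero] at h1
    exact h1
  have h4 : E * x = E * x * E := by
    rw [mul_sub, mul_sub, mul_one, sub_eq_zero, ← mul_assoc] at h2
    exact h2
  rw [h3, ← h4]

theorem exists_proj_of_ne_zero (hA : IsAWStarAlgebra A) {z : A} (hz : star z * z = z * star z)
    (h0 : z ≠ 0) : ∃ f k : A, IsStarProjection f ∧ z * k = f ∧ k * z = f ∧ f * k = k ∧
      k * f = k ∧ f * z = z * f ∧ f ≠ 0 := by
  obtain ⟨f, k, h1, h2, h3, h4, h5, h6, h7, h8⟩ := exists_spectral' hA hz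
    (t := ‖z‖ / 2) (by positivity)
  refine ⟨f, k, h1, h2, h3, h4, h5, h6, ?_⟩
  rintro rfl
  rw [sub_zero, mul_one] at h8
  have := norm_pos_iff.2 h0
  linarith

theorem pi_mul_left {v e : A} (he : IsStarProjection e) (h : star v * v = e) : v * e = v := by
  have h1 : star (v - v * e) * (v - v * e) = 0 := by
    rw [star_sub, star_mul, he.isSelfAdjoint.star_eq, sub_mul, mul_sub, mul_sub,
      ← mul_assoc (star v) v e, h, mul_assoc e (star v) v, h, mul_assoc e (star v) (v * e),
      ← mul_assoc (star v) v e, h, he.isIdempotentElem.eq, he.isIdempotentElem.eq]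
    simp
  exact (sub_eq_zero.1 ((CStarRing.star_mul_self_eq_zero_iff _).1 h1)).symm

theorem pi_mul_right {v e f : A} (he : IsStarProjection e) (h : star v * v = e)
    (h' : v * star v = f) : f * v = v := by
  rw [← h', mul_assoc, h, pi_mul_left he h]

theorem IsSup.symm_le {ι : Type v} {e : ι → A} {E : A} (hE : IsSup e E) (he : Orth e) (i : ι) :
    E * e i = e i :=
  mul_eq_self_symm (he.proj i) hE.proj (hE.le i)

/-- Orthogonal additivity of equivalence. -/
theorem orth_additive (hA : IsAWStarAlgebra A) {ι : Type v} {e f v : ι → A} (he : Orth e)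
    (hf : Orth f) (hef : ∀ i j, e i * f j = 0) (h1 : ∀ i, star (v i) * v i = e i)
    (h2 : ∀ i, v i * star (v i) = f i) {E F : A} (hE : IsSup e E) (hF : IsSup f F) :
    ∃ V : A, star V * V = E ∧ V * star V = F := by
  have hfe : ∀ i j, f i * e j = 0 := fun i j => mul_eq_zero_symm (he.proj j) (hf.proj i) (hef j i)
  have ve : ∀ i, v i * e i = v i := fun i => pi_mul_left (he.proj i) (h1 i)
  have fv : ∀ i, f i * v i = v i := fun i => pi_mul_right (he.proj i) (h1 i) (h2 i)
  have es : ∀ i, e i * star (v i) = star (v i) := fun i => by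
    have := congrArg star (ve i)
    rwa [star_mul, (he.proj i).isSelfAdjoint.star_eq] at this
  have sf : ∀ i, star (v i) * f i = star (v i) := fun i => by
    have := congrArg star (fv i)
    rwa [star_mul, (hf.proj i).isSelfAdjoint.star_eq] at this
  -- general products of the pieces
  have L : ∀ (a b : A) (i j : ι) (p q : A), a * p = a → q * b = b → p * q = 0 → a * b = 0 := by
    intro a b i j p q h3 h4 h5
    rw [← h3, ← h4, mul_assoc, ← mul_assoc p, h5, zero_mul, mul_zero]
  let g : ι → A := fun i => (1 / 2 : ℂ) • (e i + f i + v i + star (v i))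
  have ei : ∀ i, e i * e i = e i := fun i => (he.proj i).isIdempotentElem.eq
  have fi : ∀ i, f i * f i = f i := fun i => (hf.proj i).isIdempotentElem.eq
  have ev : ∀ i j, e i * v j = 0 := fun i j => L _ _ i j (e i) (f j) (ei i) (fv j) (hef i j)
  have fs : ∀ i j, f i * star (v j) = 0 := fun i j =>
    L _ _ i j (f i) (e j) (fi i) (es j) (hfe i j)
  have vf : ∀ i j, v i * f j = 0 := fun i j => L _ _ i j (e i) (f j) (ve i) (fi j) (hef i j)
  have se : ∀ i j, star (v i) * e j = 0 := fun i j =>
    L _ _ i j (f i) (e j) (sf i) (ei j) (hfe i j)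
  have vv : ∀ i j, v i * v j = 0 := fun i j => L _ _ i j (e i) (f j) (ve i) (fv j) (hef i j)
  have ss : ∀ i j, star (v i) * star (v j) = 0 := fun i j =>
    L _ _ i j (f i) (e j) (sf i) (es j) (hfe i j)
  have gproj : ∀ i, IsStarProjection (g i) := by
    intro i
    constructor
    · show g i * g i = g i
      simp only [g, smul_mul_smul_comm, mul_add, add_mul, ei, fi, hef, hfe, ev, fs, vf, se, vv, ss,
        ve, fv, es, sf, h1, h2]
      module
    · show star (g i) = g i
      simp only [g, star_smul, star_add, (he.proj i).isSelfAdjoint.star_eq,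
        (hf.proj i).isSelfAdjoint.star_eq, star_star]
      have : star (1 / 2 : ℂ) = 1 / 2 := by simp
      rw [this]
      congr 1
      abel
  have gorth : ∀ i j, i ≠ j → g i * g j = 0 := by
    intro i j hij
    have a1 : e i * e j = 0 := he.orth i j hij
    have a2 : f i * f j = 0 := hf.orth i j hij
    have a3 : e i * star (v j) = 0 := L _ _ i j (e i) (e j) (ei i) (es j) a1
    have a4 : f i * v j = 0 := L _ _ i j (f i) (f j) (fi i) (fv j) a2
    have a5 : v i * e j = 0 := L _ _ i j (e i) (e j) (ve i) (ei j) a1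
    have a6 : v i * star (v j) = 0 := L _ _ i j (e i) (e j) (ve i) (es j) a1
    have a7 : star (v i) * f j = 0 := L _ _ i j (f i) (f j) (sf i) (fi j) a2
    have a8 : star (v i) * v j = 0 := L _ _ i j (f i) (f j) (sf i) (fv j) a2
    simp only [g, smul_mul_smul_comm, mul_add, add_mul, a1, a2, a3, a4, a5, a6, a7, a8, hef, hfe,
      ev, fs, vf, se, vv, ss, add_zero, smul_zero]
  have gO : Orth g := ⟨gproj, gorth⟩
  obtain ⟨G, hG⟩ := exists_isSup hA gO
  have Gx : ∀ (i : ι) (x : A), (∀ j, j ≠ i → g j * x = 0) → G * x = g i * x := by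
    intro i x hx
    have h3 : G * (x - g i * x) = 0 := by
      refine hG.mul_eq_zero hA gO fun j => ?_
      by_cases hj : j = i
      · subst hj
        rw [mul_sub, ← mul_assoc, (gproj j).isIdempotentElem.eq, sub_self]
      · rw [mul_sub, ← mul_assoc, gorth j i hj, zero_mul, hx j hj, sub_zero]
    rw [mul_sub, ← mul_assoc, hG.symm_le gO i, sub_eq_zero] at h3
    exact h3
  have Ge : ∀ i, G * e i = (1 / 2 : ℂ) • (e i + v i) := by
    intro i
    rw [Gx i (e i)]
    · simp only [g, smul_mul_assoc, add_mul, ei, hfe, ve, se, add_zero]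
    · intro j hj
      have a1 : e j * e i = 0 := he.orth j i hj
      have a5 : v j * e i = 0 := L _ _ j i (e j) (e i) (ve j) (ei i) a1
      simp only [g, smul_mul_assoc, add_mul, a1, hfe, a5, se, add_zero, smul_zero]
  have Gf : ∀ i, G * f i = (1 / 2 : ℂ) • (f i + star (v i)) := by
    intro i
    rw [Gx i (f i)]
    · simp only [g, smul_mul_assoc, add_mul, fi, hef, vf, sf, add_zero, zero_add]
    · intro j hj
      have a1 : f j * f i = 0 := hf.orth j i hj
      have a5 : star (v j) * f i = 0 := L _ _ j i (f j) (f i) (sf j) (fi i) a1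
      simp only [g, smul_mul_assoc, add_mul, a1, hef, a5, vf, add_zero, smul_zero]
  have Fe : ∀ i, F * e i = 0 := fun i => hF.mul_eq_zero hA hf fun j => hfe j i
  have Ef : ∀ i, E * f i = 0 := fun i => hE.mul_eq_zero hA he fun j => hef j i
  have Fv : ∀ i, F * v i = v i := fun i => by
    rw [← fv i, ← mul_assoc, hF.symm_le hf i]
  have Es : ∀ i, E * star (v i) = star (v i) := fun i => by
    rw [← es i, ← mul_assoc, hE.symm_le he i]
  set V : A := (2 : ℂ) • (F * G * E) with hV
  have Ve : ∀ i, V * e i = v i := by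
    intro i
    rw [hV, smul_mul_assoc, mul_assoc, hE.symm_le he i, mul_assoc, Ge i, mul_smul_comm, smul_smul,
      mul_add, Fe, Fv, zero_add]
    norm_num
  have hVs : star V = (2 : ℂ) • (E * G * F) := by
    rw [hV, star_smul, star_mul, star_mul, hF.proj.isSelfAdjoint.star_eq,
      hE.proj.isSelfAdjoint.star_eq, hG.proj.isSelfAdjoint.star_eq, ← mul_assoc]
    congr 1
    simp
  have Vs : ∀ i, star V * f i = star (v i) := by
    intro i
    rw [hVs, smul_mul_assoc, mul_assoc, hF.symm_le hf i, mul_assoc, Gf i, mul_smul_comm, smul_smul,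
      mul_add, Ef, Es, zero_add]
    norm_num
  have VE : V * E = V := by
    rw [hV, smul_mul_assoc, mul_assoc, hE.proj.isIdempotentElem.eq]
  have VF : star V * F = star V := by
    rw [hVs, smul_mul_assoc, mul_assoc, hF.proj.isIdempotentElem.eq]
  refine ⟨V, ?_, ?_⟩
  · have h3 : (star V * V - 1) * E = 0 := by
      refine hE.mul_eq_zero' hA he fun i => ?_
      rw [sub_mul, one_mul, mul_assoc, Ve, ← fv i, ← mul_assoc, Vs, h1, sub_self]
    rw [sub_mul, one_mul, sub_eq_zero, mul_assoc, VE] at h3
    exact h3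
  · have h3 : (V * star V - 1) * F = 0 := by
      refine hF.mul_eq_zero' hA hf fun i => ?_
      rw [sub_mul, one_mul, mul_assoc, Vs, ← es i, ← mul_assoc, Ve, h2, sub_self]
    rw [sub_mul, one_mul, sub_eq_zero, mul_assoc, VF] at h3
    exact h3

end Q177.AW
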