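import Pool.Agent.Q177.AW.Ring
import Pool.Agent.Q177.AW.Sup

/-! The block of a maximal family is clean. -/

set_option autoImplicit false

universe u v

namespace Q177.AW

variable {A : Type u} [CStarAlgebra A]

theorem isUnit_of_sq_zero {R : Type u} [Ring R] {a : R} (h : a * a = 0) : IsUnit (1 + a) := by
  refine ⟨⟨1 + a, 1 - a, ?_, ?_⟩, rfl⟩
  · rw [add_mul, mul_sub, mul_sub, h]; simp
  · rw [sub_mul, mul_add, mul_add, h]; simp

theorem core_aux (hA : IsAWStarAlgebra A) {E G R T y W : A}
    (hE : IsStarProjection E) (hG : IsStarProjection G) (hR : IsStarProjection R)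
    (EG : E * G = 0) (ER : E * R = 0) (GR : G * R = 0)
    (ST : (E + G + R) * T = T) (TS : T * (E + G + R) = T) (RTE : R * T * E = 0)
    (Ey : E * y = y) (yG : y * G = y) (yTE : y * T * E = E) (GTy : G * T * y = G)
    (w1 : star W * W = R) (w3 : (W * star W) * G = W * star W) :
    ∃ P N : A, P * P = P ∧ (E + G + R) * P = P ∧ P * (E + G + R) = P ∧
      (E + G + R) * N = N ∧ N * (E + G + R) = N ∧ (T - P) * N = E + G + R ∧
      N * (T - P) = E + G + R := by
  have EE : E * E = E := hE.isIdempotentElem.eq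
  have GG : G * G = G := hG.isIdempotentElem.eq
  have RR : R * R = R := hR.isIdempotentElem.eq
  have Rs : star R = R := hR.isSelfAdjoint.star_eq
  have Gs : star G = G := hG.isSelfAdjoint.star_eq
  have GE : G * E = 0 := mul_eq_zero_symm hE hG EG
  have RE : R * E = 0 := mul_eq_zero_symm hE hR ER
  have RG : R * G = 0 := mul_eq_zero_symm hG hR GR
  have WR : W * R = W := pi_mul_left hR w1
  have GW : G * W = W := by
    have h1 : G * (W * star W) = W * star W := by
      have := congrArg star w3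
      rw [star_mul, Gs, star_mul, star_star] at this
      exact this
    calc G * W = G * (W * R) := by rw [WR]
      _ = G * (W * star W) * W := by rw [← w1]; simp only [mul_assoc]
      _ = W * (star W * W) := by rw [h1, mul_assoc]
      _ = W := by rw [w1, WR]
  have RWs : R * star W = star W := by
    have := congrArg star WR
    rwa [star_mul, Rs] at this
  have WsG : star W * G = star W := by
    have := congrArg star GW
    rwa [star_mul, Gs] at this
  -- the corner at `R`
  obtain ⟨e, he⟩ : ∃ e, e = R * T * R := ⟨_, rfl⟩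
  have Re : R * e = e := by rw [he, ← mul_assoc, ← mul_assoc, RR]
  have eR : e * R = e := by rw [he, mul_assoc, RR]
  obtain ⟨h, hh⟩ : ∃ h, h = star e * e := ⟨_, rfl⟩
  have hs : star h = h := by rw [hh, star_mul, star_star]
  obtain ⟨f, k, hf, hk1, hk2, hk3, hk4, -, -, hk6⟩ :=
    exists_spectral' hA (h := h) (by rw [hs]) (t := 1 / 4) (by norm_num)
  have ff : f * f = f := hf.isIdempotentElem.eq
  have fs : star f = f := hf.isSelfAdjoint.star_eq
  have ks : star k = k := by
    have a1 : star k * f = star k := by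
      have := congrArg star hk3
      rwa [star_mul, fs] at this
    have a2 : star k * h = f := by
      have := congrArg star hk1
      rwa [star_mul, hs, fs] at this
    calc star k = star k * f := a1.symm
      _ = star k * h * k := by rw [mul_assoc (star k), hk1]
      _ = k := by rw [a2, hk3]
  have Rh : R * h = h := by
    have : R * star e = star e := by
      have := congrArg star eR
      rwa [star_mul, Rs] at this
    rw [hh, ← mul_assoc, this]
  have Rf : R * f = f := by rw [← hk1, ← mul_assoc, Rh]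
  have Rk : R * k = k := by rw [← hk3, ← mul_assoc, Rf]
  have seR : star e * R = star e := by
    have := congrArg star Re
    rwa [star_mul, Rs] at this
  obtain ⟨g, hg⟩ : ∃ g, g = e * k * star e := ⟨_, rfl⟩
  have gg : g * g = g := by
    rw [hg]
    calc e * k * star e * (e * k * star e) = e * k * (star e * e * k) * star e := by
          simp only [mul_assoc]
      _ = e * (k * f) * star e := by rw [← hh, hk1]; simp only [mul_assoc]
      _ = e * k * star e := by rw [hk4]
  have gs : star g = g := by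
    rw [hg, star_mul, star_mul, star_star, ks, mul_assoc]
  have Rg : R * g = g := by rw [hg, ← mul_assoc, ← mul_assoc, Re]
  have gR : g * R = g := by rw [hg, mul_assoc, seR]
  have ge : g * e = e * f := by
    rw [hg, mul_assoc, ← hh, mul_assoc, hk2]
  obtain ⟨n, hn⟩ : ∃ n, n = R - g := ⟨_, rfl⟩
  have nn : n * n = n := by rw [hn, sub_mul, mul_sub, mul_sub, RR, Rg, gR, gg]; abel
  have ng : n * g = 0 := by rw [hn, sub_mul, Rg, gg, sub_self]
  have gn : g * n = 0 := by rw [hn, mul_sub, gR, gg, sub_self]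
  have hng : n + g = R := by rw [hn]; abel
  have Rn : R * n = n := by rw [hn, mul_sub, RR, Rg]
  have nR : n * R = n := by rw [hn, sub_mul, RR, gR]
  have hnp : IsStarProjection n := by
    refine ⟨nn, ?_⟩
    show star n = n
    rw [hn, star_sub, Rs, gs]
  have ne : n * e = e * (1 - f) := by
    rw [hn, sub_mul, Re, ge, mul_sub, mul_one]
  have hne : ‖n * e‖ ≤ 1 / 2 := by
    have h1 : ‖n * e‖ * ‖n * e‖ ≤ 1 / 4 := by
      rw [ne, ← CStarRing.norm_star_mul_self, star_mul, star_sub, star_one, fs]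
      calc ‖(1 - f) * star e * (e * (1 - f))‖ = ‖(1 - f) * (h * (1 - f))‖ := by
            rw [hh]; simp only [mul_assoc]
        _ ≤ ‖1 - f‖ * ‖h * (1 - f)‖ := norm_mul_le _ _
        _ ≤ 1 * (1 / 4) := by
            gcongr
            exact hf.one_sub.norm_le
        _ = 1 / 4 := by norm_num
    nlinarith [norm_nonneg (n * e)]
  have hnen : ‖n * e * n‖ < 1 := by
    calc ‖n * e * n‖ ≤ ‖n * e‖ * ‖n‖ := norm_mul_le _ _
      _ ≤ 1 / 2 * 1 := by
          gcongr
          exact hnp.norm_le
      _ < 1 := by norm_num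
  -- the unit
  obtain ⟨M, hM⟩ : ∃ M, M = 1 - R + (g + e * n - n) := ⟨_, rfl⟩
  have hMu : IsUnit M := by
    have h1 : M = (1 - 2 * n) * (1 - n * e * n) * (1 + g * e * n) := by
      have hen : e * n = g * e * n + n * e * n := by
        rw [← add_mul, ← add_mul, add_comm g n, hng, Re]
      have b1 : (1 - 2 * n) * (1 - n * e * n) = 1 - 2 * n + n * e * n := by
        have : n * (n * e * n) = n * e * n := by rw [← mul_assoc, ← mul_assoc, nn]
        rw [sub_mul, mul_sub, mul_sub, mul_assoc 2 n (n * e * n), this]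
        simp only [mul_one, one_mul, two_mul]
        abel
      have b2 : n * (g * e * n) = 0 := by rw [← mul_assoc, ← mul_assoc, ng, zero_mul, zero_mul]
      have b3 : (1 - 2 * n + n * e * n) * (1 + g * e * n) =
          1 - 2 * n + n * e * n + g * e * n := by
        rw [mul_add, mul_one, add_mul, sub_mul, mul_assoc 2 n, b2, mul_assoc (n * e) n, b2]
        simp
      rw [b1, b3, hM, ← hng, hen]
      simp only [two_mul]
      abel
    have h2 : IsUnit (1 - 2 * n) := by
      refine ⟨⟨1 - 2 * n, 1 - 2 * n, ?_, ?_⟩, rfl⟩ <;>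
      · simp only [two_mul, sub_mul, mul_sub, mul_add, add_mul, nn, one_mul, mul_one]
        abel
    have h3 : IsUnit (1 - n * e * n) := by
      have := (Units.oneSub (n * e * n) hnen).isUnit
      simpa using this
    have h4 : IsUnit (1 + g * e * n) := isUnit_of_sq_zero (by
      calc g * e * n * (g * e * n) = g * e * (n * g) * e * n := by simp only [mul_assoc]
        _ = 0 := by rw [ng]; simp)
    rw [h1]
    exact (h2.mul h3).mul h4
  obtain ⟨t, ht0, ht⟩ : ∃ t : ℝ, t ≠ 0 ∧ IsUnit (M + t • (R * T * W)) := by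
    have h1 : ∀ᶠ t in nhds (0 : ℝ), IsUnit (M + t • (R * T * W)) := by
      have hc : Continuous fun t : ℝ => M + t • (R * T * W) := by fun_prop
      refine hc.continuousAt.eventually ?_
      have h0 : M + (0 : ℝ) • (R * T * W) = M := by simp
      show ∀ᶠ y in nhds (M + (0 : ℝ) • (R * T * W)), IsUnit y
      rw [h0]
      exact Units.isOpen.mem_nhds hMu
    have h2 : ∀ᶠ t in nhdsWithin (0 : ℝ) {0}ᶜ, IsUnit (M + t • (R * T * W)) :=
      h1.filter_mono nhdsWithin_le_nhds
    have h3 : ∀ᶠ t in nhdsWithin (0 : ℝ) {0}ᶜ, t ∈ ({0}ᶜ : Set ℝ) := self_mem_nhdsWithin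
    obtain ⟨t, h4, h5⟩ := (h3.and h2).exists
    exact ⟨t, h4, h5⟩
  obtain ⟨M', hM'⟩ : ∃ M', M' = M + t • (R * T * W) := ⟨_, rfl⟩
  rw [← hM'] at ht
  obtain ⟨V, hMV, hVM⟩ : ∃ V, M' * V = 1 ∧ V * M' = 1 := by
    obtain ⟨u, hu⟩ := ht
    exact ⟨((u⁻¹ : Aˣ) : A), by rw [← hu]; simp, by rw [← hu]; simp⟩
  obtain ⟨μ, hμ⟩ : ∃ μ, μ = g + R * T * R * n - n + R * T * (t • W) := ⟨_, rfl⟩
  have hM'μ : M' = 1 - R + μ := by
    rw [hM', hM, hμ, he, mul_smul_comm]; abel
  have Rμ : R * μ = μ := by
    rw [hμ, mul_add, mul_sub, mul_add, Rg, Rn]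
    simp only [← mul_assoc, RR]
  have μR : μ * R = μ := by
    rw [hμ, add_mul, sub_mul, add_mul, gR, mul_assoc _ n R, nR, mul_assoc _ (t • W) R,
      smul_mul_assoc, WR]
  have RM' : R * M' = μ := by rw [hM'μ, mul_add, mul_sub, RR, Rμ]; simp
  have M'R : M' * R = μ := by rw [hM'μ, add_mul, sub_mul, RR, μR]; simp
  refine ring_lemma (ω := t • W) (ω' := t⁻¹ • star W) (n := n) (g := g) (rW := k * star e)
    (ν := R * V * R) EE GG RR EG GE ER RE GR RG ST TS RTE Ey yG yTE GTy ?_ ?_ ?_ ?_ ?_ nn gg ng gn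
    hng ?_ ?_ ?_ ?_ ?_ ?_ ?_
  · rw [mul_smul_comm, GW]
  · rw [smul_mul_assoc, WR]
  · rw [mul_smul_comm, RWs]
  · rw [smul_mul_assoc, WsG]
  · rw [smul_mul_smul_comm, inv_mul_cancel₀ ht0, w1, one_smul]
  · rw [← mul_assoc, Rk]
  · rw [hg]
    calc k * star e * (e * k * star e) = k * (star e * e * k) * star e := by
          simp only [mul_assoc]
      _ = k * star e := by rw [← hh, hk1, hk4]
  · rw [← he, ← mul_assoc, ← hg]
  · rw [← mul_assoc, ← mul_assoc, RR]
  · rw [mul_assoc, RR]
  · rw [← hμ]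
    calc μ * (R * V * R) = (μ * R) * V * R := by simp only [mul_assoc]
      _ = R * (M' * V) * R := by rw [μR, ← RM']; simp only [mul_assoc]
      _ = R := by rw [hMV, mul_one, RR]
  · rw [← hμ]
    calc R * V * R * μ = R * V * (R * μ) := by simp only [mul_assoc]
      _ = R * (V * M') * R := by rw [Rμ, ← M'R]; simp only [mul_assoc]
      _ = R := by rw [hVM, mul_one, RR]

theorem core (hA : IsAWStarAlgebra A) {E G R T y W : A}
    (hE : IsStarProjection E) (hG : IsStarProjection G) (hR : IsStarProjection R)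
    (EG : E * G = 0) (ER : E * R = 0) (GR : G * R = 0)
    (ST : (E + G + R) * T = T) (TS : T * (E + G + R) = T)
    (Ey : E * y = y) (yG : y * G = y) (yTE : y * T * E = E) (GTy : G * T * y = G)
    (w1 : star W * W = R) (w3 : (W * star W) * G = W * star W) :
    ∃ P N : A, P * P = P ∧ (E + G + R) * P = P ∧ P * (E + G + R) = P ∧
      (E + G + R) * N = N ∧ N * (E + G + R) = N ∧ (T - P) * N = E + G + R ∧
      N * (T - P) = E + G + R := by
  have EE : E * E = E := hE.isIdempotentElem.eq
  have GG : G * G = G := hG.isIdempotentElem.eq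
  have RR : R * R = R := hR.isIdempotentElem.eq
  have GE : G * E = 0 := mul_eq_zero_symm hE hG EG
  have RE : R * E = 0 := mul_eq_zero_symm hE hR ER
  have RG : R * G = 0 := mul_eq_zero_symm hG hR GR
  obtain ⟨a, ha⟩ : ∃ a, a = R * T * y := ⟨_, rfl⟩
  have Ra : R * a = a := by rw [ha, ← mul_assoc, ← mul_assoc, RR]
  have aG : a * G = a := by rw [ha, mul_assoc, yG]
  have aR : a * R = 0 := by rw [← aG, mul_assoc, GR, mul_zero]
  have aE : a * E = 0 := by rw [← aG, mul_assoc, GE, mul_zero]
  have Ga : G * a = 0 := by rw [← Ra, ← mul_assoc, GR, zero_mul]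
  have Ea : E * a = 0 := by rw [← Ra, ← mul_assoc, ER, zero_mul]
  have aa : a * a = 0 := by
    calc a * a = a * R * a := by rw [mul_assoc, Ra]
      _ = 0 := by rw [aR, zero_mul]
  have ay : a * y = 0 := by rw [← Ey, ← mul_assoc, aE, zero_mul]
  have ya : y * a = 0 := by rw [← yG, mul_assoc, Ga, mul_zero]
  have u1 : (1 + a) * (1 - a) = 1 := by rw [add_mul, mul_sub, mul_sub, aa]; simp
  have u2 : (1 - a) * (1 + a) = 1 := by rw [sub_mul, mul_add, mul_add, aa]; simp
  obtain ⟨S, hS⟩ : ∃ S, S = E + G + R := ⟨_, rfl⟩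
  have Sa : S * a = a := by rw [hS, add_mul, add_mul, Ea, Ga, Ra]; simp
  have aS : a * S = a := by rw [hS, mul_add, mul_add, aE, aG, aR]; simp
  have s1 : S * (1 - a) = (1 - a) * S := by rw [mul_sub, sub_mul, Sa, aS]; simp
  have s2 : S * (1 + a) = (1 + a) * S := by rw [mul_add, add_mul, Sa, aS]; simp
  obtain ⟨T', hT'⟩ : ∃ T', T' = (1 - a) * T * (1 + a) := ⟨_, rfl⟩
  have a1E : (1 + a) * E = E := by rw [add_mul, aE]; simp
  have a1y : (1 + a) * y = y := by rw [add_mul, ay]; simp
  have key := core_aux hA (T := T') (y := y) (W := W) hE hG hR EG ER GR ?_ ?_ ?_ Ey yG ?_ ?_ w1 w3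
  · obtain ⟨P, N, h1, h2, h3, h4, h5, h6, h7⟩ := key
    rw [← hS] at h2 h3 h4 h5 h6 h7 ⊢
    have hT : T = (1 + a) * T' * (1 - a) := by
      calc T = 1 * T * 1 := by simp
        _ = ((1 + a) * (1 - a)) * T * ((1 + a) * (1 - a)) := by rw [u1]
        _ = (1 + a) * T' * (1 - a) := by rw [hT']; simp only [mul_assoc]
    have hTP : T - (1 + a) * P * (1 - a) = (1 + a) * (T' - P) * (1 - a) := by
      conv_lhs => rw [hT]
      rw [mul_sub (1 + a) T' P, sub_mul]
    refine ⟨(1 + a) * P * (1 - a), (1 + a) * N * (1 - a), ?_, ?_, ?_, ?_, ?_, ?_, ?_⟩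
    · calc (1 + a) * P * (1 - a) * ((1 + a) * P * (1 - a))
          = (1 + a) * P * ((1 - a) * (1 + a)) * P * (1 - a) := by simp only [mul_assoc]
        _ = (1 + a) * (P * P) * (1 - a) := by rw [u2]; simp only [mul_assoc, mul_one]
        _ = (1 + a) * P * (1 - a) := by rw [h1]
    · rw [← mul_assoc, ← mul_assoc, s2, mul_assoc (1 + a), h2]
    · rw [mul_assoc, ← s1, ← mul_assoc, mul_assoc (1 + a), h3]
    · rw [← mul_assoc, ← mul_assoc, s2, mul_assoc (1 + a), h4]
    · rw [mul_assoc, ← s1, ← mul_assoc, mul_assoc (1 + a), h5]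
    · rw [hTP]
      calc (1 + a) * (T' - P) * (1 - a) * ((1 + a) * N * (1 - a))
          = (1 + a) * (T' - P) * ((1 - a) * (1 + a)) * N * (1 - a) := by simp only [mul_assoc]
        _ = (1 + a) * ((T' - P) * N) * (1 - a) := by rw [u2]; simp only [mul_assoc, mul_one]
        _ = S * ((1 + a) * (1 - a)) := by rw [h6, ← s2]; simp only [mul_assoc]
        _ = S := by rw [u1, mul_one]
    · rw [hTP]
      calc (1 + a) * N * (1 - a) * ((1 + a) * (T' - P) * (1 - a))
          = (1 + a) * N * ((1 - a) * (1 + a)) * (T' - P) * (1 - a) := by simp only [mul_assoc]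
        _ = (1 + a) * (N * (T' - P)) * (1 - a) := by rw [u2]; simp only [mul_assoc, mul_one]
        _ = S * ((1 + a) * (1 - a)) := by rw [h7, ← s2]; simp only [mul_assoc]
        _ = S := by rw [u1, mul_one]
  · rw [← hS, hT', ← mul_assoc, ← mul_assoc, s1, mul_assoc (1 - a) S T, hS, ST]
  · rw [← hS, hT', mul_assoc, ← s2, ← mul_assoc, mul_assoc (1 - a) T S, hS, TS]
  · rw [hT']
    calc R * ((1 - a) * T * (1 + a)) * E = (R - R * a) * T * ((1 + a) * E) := by
          rw [← mul_one_sub]; simp only [mul_assoc]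
      _ = R * T * E - R * T * (y * T * E) := by
          rw [a1E, Ra, sub_mul, sub_mul, ha]; simp only [mul_assoc]
      _ = 0 := by rw [yTE, sub_self]
  · rw [hT']
    calc y * ((1 - a) * T * (1 + a)) * E = (y - y * a) * T * ((1 + a) * E) := by
          rw [← mul_one_sub]; simp only [mul_assoc]
      _ = E := by rw [a1E, ya, sub_zero, yTE]
  · rw [hT']
    calc G * ((1 - a) * T * (1 + a)) * y = (G - G * a) * T * ((1 + a) * y) := by
          rw [← mul_one_sub]; simp only [mul_assoc]
      _ = G := by rw [a1y, Ga, sub_zero, GTy]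

end Q177.AW
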