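import Pool.Agent.Q177.AW.Small

/-! A corner in which an element almost commutes with all projections. -/

set_option autoImplicit false

universe u v

namespace Q177.AW

variable {A : Type u} [CStarAlgebra A]

theorem corner_unit (hA : IsAWStarAlgebra A) {T Z : A} (hZ : IsStarProjection Z) {c : ℝ}
    (hc1 : c ≤ 1 / 200) (hc2 : c * ‖T‖ ≤ 1 / 1536)
    (hN : ∀ e, IsStarProjection e → e * Z = e → ‖(Z - e) * T * e‖ ≤ c) :
    ∃ p v : A, p * p = p ∧ Z * p = p ∧ p * Z = p ∧ Z * v = v ∧ v * Z = v ∧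
      (Z * T * Z - p) * v = Z ∧ v * (Z * T * Z - p) = Z := by
  have hc0 : 0 ≤ c := by
    have := hN 0 (IsStarProjection.zero A) (zero_mul _)
    simpa using this
  obtain ⟨x, hx⟩ : ∃ x, x = Z * T * Z := ⟨_, rfl⟩
  rw [← hx]
  have ZZ : Z * Z = Z := hZ.isIdempotentElem.eq
  have Zs : star Z = Z := hZ.isSelfAdjoint.star_eq
  have Zx : Z * x = x := by rw [hx, ← mul_assoc, ← mul_assoc, ZZ]
  have xZ : x * Z = x := by rw [hx, mul_assoc, ZZ]
  have sxZ : star x * Z = star x := by
    have := congrArg star Zx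
    rwa [star_mul, Zs] at this
  have Zsx : Z * star x = star x := by
    have := congrArg star xZ
    rwa [star_mul, Zs] at this
  have hNx : ∀ e, IsStarProjection e → e * Z = e → ‖(Z - e) * x * e‖ ≤ c := by
    intro e he heZ
    have Ze : Z * e = e := mul_eq_self_symm he hZ heZ
    have h1 : (Z - e) * x * e = (Z - e) * T * e := by
      rw [hx]
      calc (Z - e) * (Z * T * Z) * e = ((Z - e) * Z) * T * (Z * e) := by simp only [mul_assoc]
        _ = (Z - e) * T * e := by rw [sub_mul, ZZ, heZ, Ze]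
    rw [h1]
    exact hN e he heZ
  have hxT : ‖x‖ ≤ ‖T‖ := by
    rw [hx]
    calc ‖Z * T * Z‖ ≤ ‖Z * T‖ * ‖Z‖ := norm_mul_le _ _
      _ ≤ (‖Z‖ * ‖T‖) * ‖Z‖ := by gcongr; exact norm_mul_le _ _
      _ ≤ (1 * ‖T‖) * 1 := by
        gcongr
        · exact hZ.norm_le
        · exact hZ.norm_le
      _ = ‖T‖ := by ring
  obtain ⟨f, k, hf, h2, h3, h4, h5, h6, h7, h8⟩ := exists_spectral' hA (h := star x * x)
    (by simp) (t := 1 / 16) (by norm_num)
  have hk : ‖k‖ ≤ 48 := by
    refine h7.trans ?_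
    norm_num
  have ff : f * f = f := hf.isIdempotentElem.eq
  have fs : star f = f := hf.isSelfAdjoint.star_eq
  have fZ : f * Z = f := by rw [← h3, mul_assoc, mul_assoc, xZ]
  have Zf : Z * f = f := mul_eq_self_symm hf hZ fZ
  have ks : star k = k := by
    have a1 : star k * f = star k := by
      have := congrArg star h4
      rwa [star_mul, fs] at this
    have a2 : star k * (star x * x) = f := by
      have := congrArg star h2
      rw [star_mul, star_mul, star_star, fs] at this
      exact this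
    calc star k = star k * f := a1.symm
      _ = star k * (star x * x) * k := by rw [mul_assoc (star k), h2]
      _ = k := by rw [a2, h4]
  have Zk : Z * k = k := by rw [← h4, ← mul_assoc, Zf]
  have kZ : k * Z = k := by rw [← h5, mul_assoc, fZ]
  obtain ⟨e, he⟩ : ∃ e, e = Z - f := ⟨_, rfl⟩
  have ep : IsStarProjection e := by rw [he]; exact hf.sub_of_mul_eq_left hZ fZ
  have ee : e * e = e := ep.isIdempotentElem.eq
  have es : star e = e := ep.isSelfAdjoint.star_eq
  have eZ : e * Z = e := by rw [he, sub_mul, ZZ, fZ]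
  have Ze : Z * e = e := by rw [he, mul_sub, ZZ, Zf]
  have ef : e * f = 0 := by rw [he, sub_mul, Zf, ff, sub_self]
  have fe : f * e = 0 := by rw [he, mul_sub, fZ, ff, sub_self]
  have ek : e * k = 0 := by rw [← h4, ← mul_assoc, ef, zero_mul]
  have eff : e + f = Z := by rw [he]; abel
  -- `x e` is small
  have hxe : ‖x * e‖ ≤ 1 / 4 := by
    have h9 : ‖x * e‖ * ‖x * e‖ ≤ 1 / 16 := by
      rw [← CStarRing.norm_star_mul_self, star_mul, es]
      have h10 : e * star x * (x * e) = e * (star x * x * (1 - f)) := by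
        rw [mul_assoc, ← mul_assoc (star x), he, mul_sub (star x * x), mul_sub (star x * x),
          mul_assoc (star x) x Z, xZ, mul_one]
      rw [h10]
      calc ‖e * (star x * x * (1 - f))‖ ≤ ‖e‖ * ‖star x * x * (1 - f)‖ := norm_mul_le _ _
        _ ≤ 1 * (1 / 16) := by
          gcongr
          exact ep.norm_le
        _ = 1 / 16 := one_mul _
    nlinarith [norm_nonneg (x * e)]
  -- the range projection
  obtain ⟨g, hg⟩ : ∃ g, g = x * k * star x := ⟨_, rfl⟩
  have gp : IsStarProjection g := by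
    constructor
    · show g * g = g
      rw [hg]
      calc x * k * star x * (x * k * star x) = x * (k * (star x * x) * k) * star x := by
            simp only [mul_assoc]
        _ = x * k * star x := by rw [h3, h4]
    · show star g = g
      rw [hg, star_mul, star_mul, star_star, ks, mul_assoc]
  have gZ : g * Z = g := by rw [hg, mul_assoc, sxZ]
  have Zg : Z * g = g := mul_eq_self_symm gp hZ gZ
  have gg : g * g = g := gp.isIdempotentElem.eq
  obtain ⟨r, hr⟩ : ∃ r, r = Z - g := ⟨_, rfl⟩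
  have rp : IsStarProjection r := by rw [hr]; exact gp.sub_of_mul_eq_left hZ gZ
  have rr : r * r = r := rp.isIdempotentElem.eq
  have rs : star r = r := rp.isSelfAdjoint.star_eq
  have rZ : r * Z = r := by rw [hr, sub_mul, ZZ, gZ]
  have Zr : Z * r = r := by rw [hr, mul_sub, ZZ, Zg]
  have rxf : r * x * f = 0 := by
    rw [hr, sub_mul, sub_mul, Zx, hg]
    have : x * k * star x * x * f = x * f := by
      calc x * k * star x * x * f = x * (k * (star x * x)) * f := by simp only [mul_assoc]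
        _ = x * f := by rw [h3, mul_assoc, ff]
    rw [this, sub_self]
  have hexf : ‖e * x * f‖ ≤ c := by rw [he]; exact hNx f hf fZ
  have hgr : ‖g * x * r‖ ≤ c := by
    have : g = Z - r := by rw [hr]; abel
    rw [this]; exact hNx r rp rZ
  have hrg : ‖r * x * g‖ ≤ c := by rw [hr]; exact hNx g gp gZ
  have hcomm : ‖x * r - r * x‖ ≤ 2 * c := by
    have h9 : x * r - r * x = g * x * r - r * x * g := by
      have h10 : g = Z - r := by rw [hr]; abel
      rw [h10, sub_mul, sub_mul, mul_sub, Zx, mul_assoc r x Z, xZ]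
      abel
    rw [h9]
    refine (norm_sub_le _ _).trans ?_
    linarith
  have hsx : ‖star x‖ ≤ ‖T‖ := by rw [norm_star]; exact hxT
  have hkx : ‖k * star x‖ ≤ 48 * ‖T‖ := by
    refine (norm_mul_le _ _).trans ?_
    gcongr
  have hfrf : ‖f * r * f‖ ≤ 1 / 16 := by
    have h9 : f * r * f = (k * star x) * ((x * r - r * x) * f) := by
      have h10 : (x * r - r * x) * f = x * r * f := by rw [sub_mul, rxf, sub_zero]
      rw [h10]
      calc f * r * f = k * (star x * x) * r * f := by rw [h3]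
        _ = k * star x * (x * r * f) := by simp only [mul_assoc]
    rw [h9]
    calc ‖(k * star x) * ((x * r - r * x) * f)‖ ≤ ‖k * star x‖ * ‖(x * r - r * x) * f‖ :=
          norm_mul_le _ _
      _ ≤ ‖k * star x‖ * (‖x * r - r * x‖ * ‖f‖) := by gcongr; exact norm_mul_le _ _
      _ ≤ (48 * ‖T‖) * ((2 * c) * 1) := by
        gcongr
        exact hf.norm_le
      _ = 96 * (c * ‖T‖) := by ring
      _ ≤ 1 / 16 := by linarith
  have hfr : ‖f * r‖ ≤ 1 / 4 := by
    have h9 : ‖f * r‖ * ‖f * r‖ ≤ 1 / 16 := by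
      rw [← CStarRing.norm_self_mul_star, star_mul, fs, rs]
      have : f * r * (r * f) = f * r * f := by
        calc f * r * (r * f) = f * (r * r) * f := by simp only [mul_assoc]
          _ = f * r * f := by rw [rr]
      rw [this]
      exact hfrf
    nlinarith [norm_nonneg (f * r)]
  have heg : ‖e * g‖ ≤ 1 / 32 := by
    have h9 : e * g = (e * x * f) * (k * star x) := by
      rw [hg]
      calc e * (x * k * star x) = e * x * (f * k) * star x := by rw [h4]; simp only [mul_assoc]
        _ = (e * x * f) * (k * star x) := by simp only [mul_assoc]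
    rw [h9]
    calc ‖(e * x * f) * (k * star x)‖ ≤ ‖e * x * f‖ * ‖k * star x‖ := norm_mul_le _ _
      _ ≤ c * (48 * ‖T‖) := by gcongr
      _ = 48 * (c * ‖T‖) := by ring
      _ ≤ 1 / 32 := by linarith
  -- the two products
  obtain ⟨Y, hY⟩ : ∃ Y, Y = k * star x - e := ⟨_, rfl⟩
  obtain ⟨a, ha⟩ : ∃ a, a = e * x + k * star x * e := ⟨_, rfl⟩
  obtain ⟨b, hb⟩ : ∃ b, b = (f - g) + x * e := ⟨_, rfl⟩
  have hYa : Y * (x - e) = Z - a := by
    rw [hY, ha, sub_mul, mul_sub, mul_sub, mul_assoc k (star x) x, h3, ee, ← eff]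
    abel
  have hYb : (x - e) * Y = Z - b := by
    rw [hY, hb, mul_sub, sub_mul, sub_mul, ← mul_assoc x, ← hg, ← mul_assoc e k, ek, zero_mul, ee,
      ← eff]
    abel
  have han : ‖a‖ < 1 := by
    have h9 : e * x = e * (x * e) + e * x * f := by
      rw [← mul_assoc, ← mul_add, eff, mul_assoc, xZ]
    have h10 : k * star x * e = k * star (e * x * f) := by
      rw [star_mul, star_mul, fs, es, ← mul_assoc, ← mul_assoc, h5]
    rw [ha, h10]
    calc ‖e * x + k * star (e * x * f)‖
        = ‖e * (x * e) + e * x * f + k * star (e * x * f)‖ := by rw [← h9]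
      _ ≤ ‖e * (x * e)‖ + ‖e * x * f‖ + ‖k * star (e * x * f)‖ := norm_add₃_le
      _ ≤ ‖e‖ * ‖x * e‖ + ‖e * x * f‖ + ‖k‖ * ‖e * x * f‖ := by
        gcongr
        · exact norm_mul_le _ _
        · refine (norm_mul_le _ _).trans ?_
          rw [norm_star]
      _ ≤ 1 * (1 / 4) + c + 48 * c := by
        gcongr
        exact ep.norm_le
      _ < 1 := by linarith
  have hbn : ‖b‖ < 1 := by
    have h9 : f - g = f * r - e * g := by
      rw [hr, he, mul_sub, fZ, sub_mul, Zg]
      abel
    rw [hb, h9]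
    calc ‖f * r - e * g + x * e‖ ≤ ‖f * r - e * g‖ + ‖x * e‖ := norm_add_le _ _
      _ ≤ (‖f * r‖ + ‖e * g‖) + ‖x * e‖ := by gcongr; exact norm_sub_le _ _
      _ ≤ (1 / 4 + 1 / 32) + 1 / 4 := by gcongr
      _ < 1 := by norm_num
  have YZ : Y * Z = Y := by rw [hY, sub_mul, mul_assoc, sxZ, eZ]
  have ZY : Z * Y = Y := by rw [hY, mul_sub, ← mul_assoc, Zk, Ze]
  have aZ : a * Z = a := by rw [ha, add_mul, mul_assoc, xZ, mul_assoc (k * star x), eZ]
  have Za : Z * a = a := by
    rw [ha, mul_add, ← mul_assoc, Ze, ← mul_assoc, ← mul_assoc, Zk]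
  have bZ : b * Z = b := by rw [hb, add_mul, sub_mul, fZ, gZ, mul_assoc, eZ]
  have Zb : Z * b = b := by rw [hb, mul_add, mul_sub, Zf, Zg, ← mul_assoc, Zx]
  let α : Aˣ := Units.oneSub a han
  let β : Aˣ := Units.oneSub b hbn
  have hα : ((α⁻¹ : Aˣ) : A) * (1 - a) = 1 := by
    have : (1 - a : A) = (α : A) := rfl
    rw [this]; simp
  have hβ : (1 - b) * ((β⁻¹ : Aˣ) : A) = 1 := by
    have : (1 - b : A) = (β : A) := rfl
    rw [this]; simp
  generalize ((α⁻¹ : Aˣ) : A) = α' at hα
  generalize ((β⁻¹ : Aˣ) : A) = β' at hβ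
  have l1 : (Z * α' * Y) * (x - e) = Z := by
    rw [mul_assoc, hYa]
    have h9 : Z - a = (1 - a) * Z := by rw [sub_mul, one_mul, aZ]
    rw [h9, ← mul_assoc, mul_assoc Z, hα, mul_one, ZZ]
  have r1 : (x - e) * (Y * β' * Z) = Z := by
    rw [← mul_assoc, ← mul_assoc, hYb]
    have h9 : Z - b = Z * (1 - b) := by rw [mul_sub, mul_one, Zb]
    rw [h9, mul_assoc Z, hβ, mul_one, ZZ]
  have hv : Z * α' * Y = Y * β' * Z := by
    calc Z * α' * Y = Z * α' * Y * Z := by rw [mul_assoc _ Y Z, YZ]
      _ = Z * α' * Y * ((x - e) * (Y * β' * Z)) := by rw [r1]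
      _ = (Z * α' * Y * (x - e)) * (Y * β' * Z) := by simp only [mul_assoc]
      _ = Z * (Y * β' * Z) := by rw [l1]
      _ = Y * β' * Z := by rw [← mul_assoc, ← mul_assoc, ZY]
  refine ⟨e, Y * β' * Z, ee, Ze, eZ, ?_, ?_, r1, ?_⟩
  · rw [← mul_assoc, ← mul_assoc, ZY]
  · rw [mul_assoc, ZZ]
  · rw [← hv]; exact l1

end Q177.AW
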