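import Pool.Agent.Q177.AW.Sup

/-! Range projections of elements between orthogonal projections. -/

set_option autoImplicit false

universe u v

namespace Q177.AW

variable {A : Type u} [CStarAlgebra A]

attribute [local instance] CStarAlgebra.spectralOrder CStarAlgebra.spectralOrderedRing

/-- For `y = F y G` with orthogonal projections `F`, `G` there is a projection `q ≤ F` with
`q y = y` which is equivalent to a subprojection of `G`. -/
theorem exists_cover (hA : IsAWStarAlgebra A) {y F G : A} (hF : IsStarProjection F)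
    (hG : IsStarProjection G) (hFG : F * G = 0) (hFy : F * y = y) (hyG : y * G = y) :
    ∃ q w : A, IsStarProjection q ∧ q * F = q ∧ q * y = y ∧ star w * w = q ∧
      IsStarProjection (w * star w) ∧ (w * star w) * G = w * star w := by
  set z := y * star y with hz
  have hzs : star z = z := by simp [hz]
  obtain ⟨B, hB, hX, hB'⟩ := exists_masa {z} (by
    rintro x rfl; rw [hzs]; rfl) (by
    rintro x rfl y rfl; rfl)
  have hzB : z ∈ B := hX rfl
  have hFz : F * z = z := by rw [hz, ← mul_assoc, hFy]
  obtain ⟨S, -, hS⟩ := zorn_subset_nonempty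
    {S : Set A | (∀ f ∈ S, IsStarProjection f ∧ f ∈ B ∧ f ≠ 0 ∧ ∃ k ∈ B, z * k = f ∧ f * k = k) ∧
      ∀ f ∈ S, ∀ g ∈ S, f ≠ g → f * g = 0} (by
      intro c hc1 hc2 hne
      refine ⟨⋃₀ c, ⟨?_, ?_⟩, fun s hs => Set.subset_sUnion_of_mem hs⟩
      · rintro x ⟨s, hs, hx⟩
        exact (hc1 hs).1 x hx
      · rintro x ⟨s, hs, hx⟩ y ⟨t, ht, hy⟩
        rcases hc2.total hs ht with h | h
        · exact (hc1 ht).2 x (h hx) y hy
        · exact (hc1 hs).2 x hx y (h hy)) ∅ ⟨by simp, by simp⟩
  have hS1 := hS.prop.1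
  have hS2 := hS.prop.2
  let e : S → A := fun f => f
  have he : Orth e := ⟨fun i => (hS1 i i.2).1, fun i j hij => hS2 i i.2 j j.2 fun h =>
    hij (Subtype.ext h)⟩
  obtain ⟨q, hq⟩ := exists_isSup hA he
  have hqB : q ∈ B := by
    refine hB' q fun b hb => ?_
    refine (hq.comm hA he (fun i => ?_) fun i => ?_).symm
    · exact hB.1 _ hb _ (hS1 i i.2).2.1
    · exact hB.1 _ (star_mem hb) _ (hS1 i i.2).2.1
  have hzq : z * (1 - q) = 0 := by
    by_contra h0
    have hz'B : z * (1 - q) ∈ B := B.mul_mem hzB (B.sub_mem B.one_mem hqB)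
    obtain ⟨f, k, hf, hfB, hkB, h1, h2, h3, h4⟩ := exists_spectral hA hB hB' hz'B
      (t := ‖z * (1 - q)‖ / 2) (by positivity)
    have hf0 : f ≠ 0 := by
      rintro rfl
      rw [sub_zero, mul_one] at h4
      have := norm_pos_iff.2 h0
      linarith
    have hqf : q * f = 0 := by
      rw [← h1, ← mul_assoc, hB.1 q hqB _ hz'B, mul_assoc z, hq.proj.one_sub_mul_self, mul_zero,
        zero_mul]
    have hfS : f ∉ S := fun hfS => hf0 (by
      have h5 : q * f = f := hq.symm_le he ⟨f, hfS⟩
      rw [← h5]; exact hqf)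
    have hpf : ∀ p ∈ S, p * f = 0 := by
      intro p hp
      have := hq.le ⟨p, hp⟩
      change p * q = p at this
      rw [← this, mul_assoc, hqf, mul_zero]
    refine hfS (hS.le_of_ge (y := insert f S) ⟨?_, ?_⟩ (Set.subset_insert _ _)
      (Set.mem_insert _ _))
    · rintro g (rfl | hg)
      · refine ⟨hf, hfB, hf0, (1 - q) * k, B.mul_mem (B.sub_mem B.one_mem hqB) hkB, ?_, ?_⟩
        · rw [← mul_assoc, h1]
        · rw [← mul_assoc, mul_sub, mul_one, hB.1 _ hfB _ hqB, hqf, sub_zero, sub_mul, one_mul,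
            h2]
          rw [← h2, ← mul_assoc, hqf, zero_mul, sub_zero, h2]
      · exact hS1 g hg
    · rintro g (rfl | hg) g' (rfl | hg') hne
      · exact absurd rfl hne
      · exact mul_eq_zero_symm (hS1 g' hg').1 hf (hpf g' hg')
      · exact hpf g hg
      · exact hS2 g hg g' hg' hne
  have hqy : q * y = y := by
    have h1 : ((1 - q) * y) * star ((1 - q) * y) = 0 := by
      rw [star_mul, hq.proj.one_sub.isSelfAdjoint.star_eq, mul_assoc, ← mul_assoc y, ← hz, hzq,
        mul_zero]
    have h2 := (CStarRing.mul_star_self_eq_zero_iff _).1 h1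
    rw [sub_mul, one_mul, sub_eq_zero] at h2
    exact h2.symm
  have hpF : ∀ i, e i * F = e i := by
    intro i
    obtain ⟨k, hk, h1, h2⟩ := (hS1 i i.2).2.2.2
    refine star_mul_eq hF (he.proj i) (he.proj i) ?_
    show F * (i : A) = i
    rw [← h1, ← mul_assoc, hFz]
  have hqF : q * F = q := hq.least F hF hpF
  choose k hkB h1 h2 using fun i : S => (hS1 i i.2).2.2.2
  have hcomm : ∀ i, z * k i = k i * z := fun i => hB.1 _ hzB _ (hkB i)
  have hkp : ∀ i, k i * e i = k i := fun i => by
    show k i * (i : A) = k i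
    rw [hB.1 _ (hkB i) _ (hS1 i i.2).2.1, h2]
  have hk0 : ∀ i, 0 ≤ k i := by
    intro i
    have h3 : star (k i) = star (star y * k i) * (star y * k i) := by
      have h4 : star (k i) * (i : A) = star (k i) := by
        have := congrArg star (h2 i)
        rwa [star_mul, (hS1 i i.2).1.isSelfAdjoint.star_eq] at this
      rw [star_mul, star_star, mul_assoc, ← mul_assoc y, ← hz, h1, h4]
    have h4 : 0 ≤ star (k i) := by rw [h3]; exact star_mul_self_nonneg _
    have h5 := h4.isSelfAdjoint.star_eq
    rw [star_star] at h5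
    rw [h5]; exact h4
  have hks : ∀ i, star (k i) = k i := fun i => (hk0 i).isSelfAdjoint.star_eq
  let c : S → A := fun i => CFC.sqrt (k i)
  have hcc : ∀ i, c i * c i = k i := fun i => CFC.sqrt_mul_sqrt_self (k i) (hk0 i)
  have hcs : ∀ i, star (c i) = c i := fun i => (CFC.sqrt_nonneg (k i)).isSelfAdjoint.star_eq
  have hcz : ∀ i, c i * z = z * c i := by
    intro i
    have h3 : Commute (k i) z := (hcomm i).symm
    exact (h3.cfcₙ_nnreal NNReal.sqrt).eq
  let v : S → A := fun i => star y * c i
  have hv1 : ∀ i, star (v i) * v i = e i := by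
    intro i
    show star (star y * c i) * (star y * c i) = (i : A)
    rw [star_mul, star_star, hcs, mul_assoc, ← mul_assoc y, ← hz, ← hcz, ← mul_assoc, hcc,
      ← hcomm, h1]
  let r : S → A := fun i => star y * k i * y
  have hv2 : ∀ i, v i * star (v i) = r i := by
    intro i
    show (star y * c i) * star (star y * c i) = star y * k i * y
    rw [star_mul, star_star, hcs, mul_assoc, ← mul_assoc (c i), hcc, ← mul_assoc]
  have hrr : ∀ i j, r i * r j = star y * (k i * (z * k j)) * y := by
    intro i j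
    show star y * k i * y * (star y * k j * y) = _
    rw [hz]
    simp only [mul_assoc]
  have hr : Orth r := by
    refine ⟨fun i => ⟨?_, ?_⟩, fun i j hij => ?_⟩
    · show r i * r i = r i
      rw [hrr, h1]
      have := hkp i
      change k i * (i : A) = k i at this
      rw [this]
    · show star (r i) = r i
      rw [← hv2, star_mul, star_star]
    · rw [hrr, h1]
      have h5 := hkp i
      have h6 : e i * e j = 0 := he.orth i j hij
      change e i * (j : A) = 0 at h6
      rw [← h5, mul_assoc (k i), h6, mul_zero, mul_zero, zero_mul]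
  have hrG : ∀ i, r i * G = r i := fun i => by
    show star y * k i * y * G = star y * k i * y
    rw [mul_assoc, hyG]
  have hGr : ∀ i, G * r i = r i := fun i => star_mul_eq (hr.proj i) hG (hr.proj i) (hrG i)
  have her : ∀ i j, e i * r j = 0 := by
    intro i j
    rw [← hpF i, ← hGr j, mul_assoc, ← mul_assoc F, hFG, zero_mul, mul_zero]
  obtain ⟨R, hR⟩ := exists_isSup hA hr
  obtain ⟨V, hV1, hV2⟩ := orth_additive hA he hr her hv1 hv2 hq hR
  exact ⟨q, V, hq.proj, hqF, hqy, hV1, by rw [hV2]; exact hR.proj, by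
    rw [hV2]; exact hR.least G hG hrG⟩

end Q177.AW
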