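import Mathlib

/-! Definitions: AW*-algebras (Kaplansky's definition) and clean rings. -/

set_option autoImplicit false

universe u

namespace Q177.AW

/-- A unital ring is clean if each element is the sum of a unit and an idempotent. -/
def IsClean (R : Type u) [Ring R] : Prop :=
  ∀ x : R, ∃ u e : R, IsUnit u ∧ e * e = e ∧ x = u + e

/-- `B` is a commutative self-adjoint subalgebra of `A` which is maximal among the commutative
self-adjoint subalgebras. -/
def IsMasa {A : Type u} [CStarAlgebra A] (B : StarSubalgebra ℂ A) : Prop :=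
  (∀ x ∈ B, ∀ y ∈ B, x * y = y * x) ∧
  ∀ C : StarSubalgebra ℂ A, (∀ x ∈ C, ∀ y ∈ C, x * y = y * x) → B ≤ C → C ≤ B

/-- `A` is an AW*-algebra: every family of pairwise orthogonal projections has a least upper bound
among the projections (`p ≤ q` means `p * q = p`), and every maximal commutative self-adjoint
subalgebra is generated, as a norm closed algebra, by the projections it contains. -/
structure IsAWStarAlgebra (A : Type u) [CStarAlgebra A] : Prop where
  exists_lub : ∀ S : Set A, (∀ p ∈ S, IsStarProjection p) →
    (∀ p ∈ S, ∀ q ∈ S, p ≠ q → p * q = 0) →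
    ∃ e : A, IsStarProjection e ∧ (∀ p ∈ S, p * e = p) ∧
      ∀ f : A, IsStarProjection f → (∀ p ∈ S, p * f = p) → e * f = e
  masa : ∀ B : StarSubalgebra ℂ A, IsMasa B →
    (B : Set A) ⊆ closure (StarAlgebra.adjoin ℂ {p : A | p ∈ B ∧ IsStarProjection p} : Set A)

end Q177.AW
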