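import Pool.Agent.Q177.AW.Inv

/-! Maximal families of orthogonal blocks. -/

set_option autoImplicit false

universe u v

namespace Q177.AW

variable {A : Type u} [CStarAlgebra A]

/-- a block -/
structure Mem (A : Type u) where
  E : A
  G : A
  q : A
  w : A

/-- `s` dominates the family -/
def Dom (X : Set (Mem A)) (s : A) : Prop :=
  ∀ n ∈ X, n.E * s = n.E ∧ n.G * s = n.G ∧ n.q * s = n.q

/-- the properties of the families -/
structure Good (T : A) (C : ℝ) (X : Set (Mem A)) : Prop where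
  projE : ∀ m ∈ X, IsStarProjection m.E
  projG : ∀ m ∈ X, IsStarProjection m.G
  projq : ∀ m ∈ X, IsStarProjection m.q
  w1 : ∀ m ∈ X, star m.w * m.w = m.q
  w2 : ∀ m ∈ X, IsStarProjection (m.w * star m.w)
  w3 : ∀ m ∈ X, (m.w * star m.w) * m.G = m.w * star m.w
  orthE : ∀ m ∈ X, ∀ n ∈ X, m ≠ n → m.E * n.E = 0
  orthG : ∀ m ∈ X, ∀ n ∈ X, m ≠ n → m.G * n.G = 0
  orthq : ∀ m ∈ X, ∀ n ∈ X, m ≠ n → m.q * n.q = 0
  EG : ∀ m ∈ X, ∀ n ∈ X, m.E * n.G = 0
  Eq : ∀ m ∈ X, ∀ n ∈ X, m.E * n.q = 0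
  Gq : ∀ m ∈ X, ∀ n ∈ X, m.G * n.q = 0
  off : ∀ m ∈ X, ∀ n ∈ X, m ≠ n → m.G * T * n.E = 0
  inv : ∀ m ∈ X, ∃ y, ‖y‖ ≤ C ∧ m.E * y = y ∧ y * m.G = y ∧ y * T * m.E = m.E ∧
    m.G * T * y = m.G
  dom1 : ∀ m ∈ X, ∀ s, IsStarProjection s → Dom X s → (1 - s) * T * m.E = 0
  dom2 : ∀ m ∈ X, ∀ s, IsStarProjection s → Dom X s → m.G * T * (1 - s) = 0

theorem exists_maximal (T : A) (C : ℝ) : ∃ X : Set (Mem A), Maximal (Good T C) X := by
  obtain ⟨X, -, hX⟩ := zorn_subset_nonempty {X : Set (Mem A) | Good T C X} (by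
    intro c hc1 hc2 hne
    have two : ∀ m ∈ ⋃₀ c, ∀ n ∈ ⋃₀ c, ∃ s ∈ c, m ∈ s ∧ n ∈ s := by
      rintro m ⟨s, hs, hm⟩ n ⟨t, ht, hn⟩
      rcases hc2.total hs ht with h | h
      · exact ⟨t, ht, h hm, hn⟩
      · exact ⟨s, hs, hm, h hn⟩
    have hd : ∀ s ∈ c, ∀ p : A, Dom (⋃₀ c) p → Dom s p := fun s hs p hp n hn =>
      hp n ⟨s, hs, hn⟩
    refine ⟨⋃₀ c, ?_, fun s hs => Set.subset_sUnion_of_mem hs⟩
    exact
      { projE := by rintro m ⟨s, hs, hm⟩; exact (hc1 hs).projE m hm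
        projG := by rintro m ⟨s, hs, hm⟩; exact (hc1 hs).projG m hm
        projq := by rintro m ⟨s, hs, hm⟩; exact (hc1 hs).projq m hm
        w1 := by rintro m ⟨s, hs, hm⟩; exact (hc1 hs).w1 m hm
        w2 := by rintro m ⟨s, hs, hm⟩; exact (hc1 hs).w2 m hm
        w3 := by rintro m ⟨s, hs, hm⟩; exact (hc1 hs).w3 m hm
        orthE := by
          intro m hm n hn h
          obtain ⟨s, hs, h1, h2⟩ := two m hm n hn
          exact (hc1 hs).orthE m h1 n h2 h
        orthG := by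
          intro m hm n hn h
          obtain ⟨s, hs, h1, h2⟩ := two m hm n hn
          exact (hc1 hs).orthG m h1 n h2 h
        orthq := by
          intro m hm n hn h
          obtain ⟨s, hs, h1, h2⟩ := two m hm n hn
          exact (hc1 hs).orthq m h1 n h2 h
        EG := by
          intro m hm n hn
          obtain ⟨s, hs, h1, h2⟩ := two m hm n hn
          exact (hc1 hs).EG m h1 n h2
        Eq := by
          intro m hm n hn
          obtain ⟨s, hs, h1, h2⟩ := two m hm n hn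
          exact (hc1 hs).Eq m h1 n h2
        Gq := by
          intro m hm n hn
          obtain ⟨s, hs, h1, h2⟩ := two m hm n hn
          exact (hc1 hs).Gq m h1 n h2
        off := by
          intro m hm n hn h
          obtain ⟨s, hs, h1, h2⟩ := two m hm n hn
          exact (hc1 hs).off m h1 n h2 h
        inv := by rintro m ⟨s, hs, hm⟩; exact (hc1 hs).inv m hm
        dom1 := by rintro m ⟨s, hs, hm⟩ p hp hd'; exact (hc1 hs).dom1 m hm p hp (hd s hs p hd')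
        dom2 := by rintro m ⟨s, hs, hm⟩ p hp hd'; exact (hc1 hs).dom2 m hm p hp (hd s hs p hd')})
    ∅ (by constructor <;> simp)
  exact ⟨X, hX⟩

end Q177.AW
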