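import Pool.Agent.Q177.AW.Cover

/-! Invertibility under a supremum of projections. -/

set_option autoImplicit false

universe u v

namespace Q177.AW

variable {A : Type u} [CStarAlgebra A]

theorem proj_eq_zero {p : A} (hp : IsStarProjection p) (h : ‖p‖ < 1) : p = 0 := by
  have h1 : ‖star p * p‖ = ‖p‖ * ‖p‖ := CStarRing.norm_star_mul_self
  rw [hp.isSelfAdjoint.star_eq, hp.isIdempotentElem.eq] at h1
  have h2 : ‖p‖ = 0 := by
    by_contra h0
    have h3 : 0 < ‖p‖ := lt_of_le_of_ne (norm_nonneg _) (Ne.symm h0)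
    nlinarith
  exact norm_eq_zero.1 h2

theorem sup_invertible (hA : IsAWStarAlgebra A) {ι : Type v} {e : ι → A} (he : Orth e) {E : A}
    (hE : IsSup e E) {h : A} (hh : star h = h) (hhE : h * E = h)
    (hc : ∀ i, h * e i = e i * h) (C : ℝ) (hC : ∀ i, ∃ k, ‖k‖ ≤ C ∧ k * (h * e i) = e i) :
    ∃ k, k * h = E ∧ h * k = E ∧ k * E = k ∧ E * k = k := by
  obtain ⟨B, hB, hX, hB'⟩ := exists_masa (insert h (Set.range e)) (by
    rintro y (rfl | ⟨i, rfl⟩)
    · rw [hh]; exact Set.mem_insert _ _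
    · rw [(he.proj i).isSelfAdjoint.star_eq]; exact Set.mem_insert_of_mem _ ⟨i, rfl⟩) (by
    rintro y (rfl | ⟨i, rfl⟩) y' (rfl | ⟨j, rfl⟩)
    · rfl
    · exact hc j
    · exact (hc i).symm
    · by_cases hij : i = j
      · rw [hij]
      · rw [he.orth i j hij, he.orth j i (Ne.symm hij)])
  have hhB : h ∈ B := hX (Set.mem_insert _ _)
  have heB : ∀ i, e i ∈ B := fun i => hX (Set.mem_insert_of_mem _ ⟨i, rfl⟩)
  have hEB : E ∈ B := by
    refine hB' E fun b hb => ?_
    refine (hE.comm hA he (fun i => ?_) fun i => ?_).symm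
    · exact hB.1 _ hb _ (heB i)
    · exact hB.1 _ (star_mem hb) _ (heB i)
  have ht : 0 < 1 / (2 * (|C| + 1)) := by positivity
  obtain ⟨f, k, hf, hfB, hkB, h1, h2, -, h4⟩ := exists_spectral hA hB hB' hhB ht
  have h5 : ∀ i, e i * (1 - f) = 0 := by
    intro i
    obtain ⟨l, hl1, hl2⟩ := hC i
    have hp : IsStarProjection (e i * (1 - f)) :=
      (he.proj i).mul hf.one_sub (hB.1 _ (heB i) _ (B.sub_mem B.one_mem hfB))
    refine proj_eq_zero hp ?_
    have h6 : e i * (1 - f) = l * (h * (1 - f)) * e i := by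
      have h7 : e i * (1 - f) = (1 - f) * e i := hB.1 _ (heB i) _ (B.sub_mem B.one_mem hfB)
      calc e i * (1 - f) = l * (h * e i) * (1 - f) := by rw [hl2]
        _ = l * (h * (e i * (1 - f))) := by simp only [mul_assoc]
        _ = l * (h * (1 - f)) * e i := by rw [h7]; simp only [mul_assoc]
    have hCn : 0 ≤ C := (norm_nonneg _).trans hl1
    calc ‖e i * (1 - f)‖ = ‖l * (h * (1 - f)) * e i‖ := by rw [h6]
      _ ≤ ‖l * (h * (1 - f))‖ * ‖e i‖ := norm_mul_le _ _
      _ ≤ (‖l‖ * ‖h * (1 - f)‖) * 1 := by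
        gcongr
        · exact norm_mul_le _ _
        · exact (he.proj i).norm_le
      _ ≤ (C * (1 / (2 * (|C| + 1)))) * 1 := by gcongr
      _ < 1 := by
        rw [mul_one, mul_one_div, div_lt_one (by positivity), abs_of_nonneg hCn]
        linarith
  have h6 : E * (1 - f) = 0 := hE.mul_eq_zero hA he h5
  have h7 : E * f = E := by
    rw [mul_sub, mul_one, sub_eq_zero] at h6
    exact h6.symm
  have h8 : h * (k * E) = E := by
    rw [← mul_assoc, h1, hB.1 _ hfB _ hEB, h7]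
  refine ⟨k * E, ?_, h8, ?_, ?_⟩
  · rw [hB.1 _ (B.mul_mem hkB hEB) _ hhB, h8]
  · rw [mul_assoc, hE.proj.isIdempotentElem.eq]
  · rw [← mul_assoc, hB.1 _ hEB _ hkB, mul_assoc, hE.proj.isIdempotentElem.eq]

end Q177.AW
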