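import Pool.Agent.Q177.AW.Block

/-! Maximality: off-diagonal parts are small on the complement. -/

set_option autoImplicit false

universe u v

namespace Q177.AW

variable {A : Type u} [CStarAlgebra A]

/-- If `l` is a left inverse of `y` on the projection `f` then `y` maps `f` onto a projection. -/
theorem exists_range (hA : IsAWStarAlgebra A) {f y l : A} (hf : IsStarProjection f)
    (hyf : y * f = y) (hl : l * y = f) (_hfl : f * l = l) :
    ∃ k, IsStarProjection (y * k * star y) ∧ k * (star y * y) = f ∧ (star y * y) * k = f ∧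
      f * k = k ∧ k * f = k ∧ star k = k := by
  have hfy : f * star y = star y := by
    have := congrArg star hyf
    rwa [star_mul, hf.isSelfAdjoint.star_eq] at this
  have ht : 0 < 1 / (4 * (‖l‖ + 1) ^ 2) := by positivity
  obtain ⟨f1, k, h1, h2, h3, h4, h5, h6, -, h8⟩ := exists_spectral' hA (h := star y * y)
    (by simp) ht
  have hff1 : f * f1 = f1 := by rw [← h2, ← mul_assoc, ← mul_assoc, hfy]
  have hr : IsStarProjection (f - f1) := h1.sub_of_mul_eq_right hf hff1
  have hf1f : f1 * f = f1 := star_mul_eq hf h1 h1 hff1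
  have hr0 : f - f1 = 0 := by
    refine proj_eq_zero hr ?_
    have h9 : f - f1 = l * (y * (1 - f1)) := by
      rw [← mul_assoc, hl, mul_sub, mul_one, hff1]
    have h10 : ‖y * (1 - f1)‖ * ‖y * (1 - f1)‖ ≤ 1 / (4 * (‖l‖ + 1) ^ 2) := by
      rw [← CStarRing.norm_star_mul_self, star_mul, h1.one_sub.isSelfAdjoint.star_eq, mul_assoc,
        ← mul_assoc (star y)]
      refine (norm_mul_le _ _).trans ?_
      calc ‖1 - f1‖ * ‖star y * y * (1 - f1)‖ ≤ 1 * (1 / (4 * (‖l‖ + 1) ^ 2)) := by
            gcongr
            exact h1.one_sub.norm_le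
        _ = 1 / (4 * (‖l‖ + 1) ^ 2) := one_mul _
    have h11 : ‖y * (1 - f1)‖ ≤ 1 / (2 * (‖l‖ + 1)) := by
      refine abs_le_of_sq_le_sq' ?_ (by positivity) |>.2
      calc ‖y * (1 - f1)‖ ^ 2 = ‖y * (1 - f1)‖ * ‖y * (1 - f1)‖ := sq _
        _ ≤ _ := h10
        _ = (1 / (2 * (‖l‖ + 1))) ^ 2 := by field_simp; norm_num
    calc ‖f - f1‖ ≤ ‖l‖ * ‖y * (1 - f1)‖ := by rw [h9]; exact norm_mul_le _ _
      _ ≤ ‖l‖ * (1 / (2 * (‖l‖ + 1))) := by gcongr
      _ < 1 := by
        rw [mul_one_div, div_lt_one (by positivity)]
        linarith [norm_nonneg l]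
  have hff : f1 = f := (sub_eq_zero.1 hr0).symm
  rw [hff] at h2 h3 h4 h5 h6
  have hks : star k = k := by
    have a1 : star k * f = star k := by
      have := congrArg star h4
      rwa [star_mul, hf.isSelfAdjoint.star_eq] at this
    have a2 : star k * (star y * y) = f := by
      have := congrArg star h2
      rw [star_mul, star_mul, star_star, hf.isSelfAdjoint.star_eq] at this
      exact this
    calc star k = star k * f := a1.symm
      _ = star k * (star y * y) * k := by rw [mul_assoc (star k), h2]
      _ = k := by rw [a2, h4]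
  refine ⟨k, ⟨?_, ?_⟩, h3, h2, h4, h5, hks⟩
  · show y * k * star y * (y * k * star y) = y * k * star y
    calc y * k * star y * (y * k * star y) = y * (k * (star y * y) * k) * star y := by
          simp only [mul_assoc]
      _ = y * k * star y := by rw [h3, h4]
  · show star (y * k * star y) = y * k * star y
    rw [star_mul, star_mul, star_star, hks, mul_assoc]

theorem small_of_maximal (hA : IsAWStarAlgebra A) {T : A} {c : ℝ} (hc : 0 < c)
    {X : Set (Mem A)} (hX : Maximal (Good T (3 / c ^ 2 * ‖T‖)) X) {E G q W Y : A}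
    (hB : Block T E G q W Y) (dom : Dom X (E + G + q))
    (least : ∀ s, IsStarProjection s → Dom X s → (E + G + q) * s = E + G + q) :
    ∀ e, IsStarProjection e → e * (1 - (E + G + q)) = e →
      ‖(1 - (E + G + q) - e) * T * e‖ ≤ c := by
  intro e he heZ
  by_contra hbig
  rw [not_le] at hbig
  set S := E + G + q with hS
  set Z := 1 - S with hZ
  have GTZ : G * T * Z = 0 := hB.right
  have ZTE : Z * T * E = 0 := hB.low
  clear_value Z
  have GE : G * E = 0 := mul_eq_zero_symm hB.projE hB.projG hB.EG
  have qE : q * E = 0 := mul_eq_zero_symm hB.projE hB.projq hB.Eq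
  have qG : q * G = 0 := mul_eq_zero_symm hB.projG hB.projq hB.Gq
  have Sp : IsStarProjection S := by
    refine (hB.projE.add hB.projG hB.EG).add hB.projq ?_
    rw [add_mul, hB.Eq, hB.Gq, add_zero]
  have Zp : IsStarProjection Z := by rw [hZ]; exact Sp.one_sub
  have SZ : S * Z = 0 := by rw [hZ]; exact Sp.mul_one_sub_self
  have ZS : Z * S = 0 := by rw [hZ]; exact Sp.one_sub_mul_self
  have ES : E * S = E := by
    rw [hS, mul_add, mul_add, hB.projE.isIdempotentElem.eq, hB.EG, hB.Eq, add_zero, add_zero]
  have GS : G * S = G := by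
    rw [hS, mul_add, mul_add, hB.projG.isIdempotentElem.eq, GE, hB.Gq, add_zero, zero_add]
  have Ze : Z * e = e := mul_eq_self_symm he Zp heZ
  clear_value S
  -- the off-diagonal part
  obtain ⟨y, hy⟩ : ∃ y, y = (Z - e) * T * e := ⟨_, rfl⟩
  rw [← hy] at hbig
  have Zep : IsStarProjection (Z - e) := he.sub_of_mul_eq_left Zp heZ
  have hye : y * e = y := by rw [hy, mul_assoc, he.isIdempotentElem.eq]
  have hZy : (Z - e) * y = y := by
    rw [hy, ← mul_assoc, ← mul_assoc, Zep.isIdempotentElem.eq]
  have hyn : ‖y‖ ≤ ‖T‖ := by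
    calc ‖y‖ = ‖(Z - e) * T * e‖ := by rw [hy]
      _ ≤ ‖(Z - e) * T‖ * ‖e‖ := norm_mul_le _ _
      _ ≤ (‖Z - e‖ * ‖T‖) * 1 := by
        gcongr
        · exact norm_mul_le _ _
        · exact he.norm_le
      _ ≤ (1 * ‖T‖) * 1 := by
        gcongr
        exact Zep.norm_le
      _ = ‖T‖ := by ring
  have hc2 : 0 < c ^ 2 := by positivity
  obtain ⟨f, k, hf, h2, h3, h4, h5, -, h7, h8⟩ := exists_spectral' hA (h := star y * y)
    (by simp) hc2
  have hf0 : f ≠ 0 := by
    rintro rfl
    rw [sub_zero, mul_one, CStarRing.norm_star_mul_self] at h8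
    nlinarith
  have hfe : f * e = f := by
    rw [← h3, mul_assoc, mul_assoc, hye]
  have hef : e * f = f := star_mul_eq hf he hf hfe
  have hfZ : f * Z = f := by rw [← hfe, mul_assoc, heZ]
  have hZf : Z * f = f := star_mul_eq hf Zp hf hfZ
  have Zfp : IsStarProjection (Z - f) := hf.sub_of_mul_eq_left Zp hfZ
  obtain ⟨y1, hy1⟩ : ∃ y1, y1 = (Z - f) * T * f := ⟨_, rfl⟩
  have hy1f : y1 * f = y1 := by rw [hy1, mul_assoc, hf.isIdempotentElem.eq]
  have hZy1 : (Z - f) * y1 = y1 := by
    rw [hy1, ← mul_assoc, ← mul_assoc, Zfp.isIdempotentElem.eq]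
  have hsy : star y = e * star T * (Z - e) := by
    rw [hy, star_mul, star_mul, he.isSelfAdjoint.star_eq, Zep.isSelfAdjoint.star_eq, mul_assoc]
  have hZZ : (Z - e) * (Z - f) = Z - e := by
    rw [sub_mul, mul_sub, mul_sub, Zp.isIdempotentElem.eq, hZf, heZ, hef]
    abel
  have hsyZ : star y * (Z - f) = star y := by
    rw [hsy, mul_assoc, hZZ]
  have hsyZe : star y * (Z - e) = star y := by
    rw [hsy, mul_assoc, Zep.isIdempotentElem.eq]
  have hl : (k * star y) * y1 = f := by
    calc (k * star y) * y1 = k * (star y * (Z - f)) * T * f := by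
          rw [hy1]; simp only [mul_assoc]
      _ = k * (star y * (Z - e)) * T * (e * f) := by rw [hsyZ, hsyZe, hef]
      _ = k * (star y * y) * f := by rw [hy]; simp only [mul_assoc]
      _ = f := by rw [h3, hf.isIdempotentElem.eq]
  have hfl : f * (k * star y) = k * star y := by rw [← mul_assoc, h4]
  obtain ⟨k1, g1, g2, g3, g4, g5, g6⟩ := exists_range hA hf hy1f hl hfl
  obtain ⟨G0, hG0⟩ : ∃ G0, G0 = y1 * k1 * star y1 := ⟨_, rfl⟩
  rw [← hG0] at g1
  have hfy1 : f * star y1 = star y1 := by
    have := congrArg star hy1f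
    rwa [star_mul, hf.isSelfAdjoint.star_eq] at this
  have hy1Z : star y1 * (Z - f) = star y1 := by
    have := congrArg star hZy1
    rwa [star_mul, Zfp.isSelfAdjoint.star_eq] at this
  have G0y1 : G0 * y1 = y1 := by
    rw [hG0, mul_assoc, mul_assoc, g2, hy1f]
  have ZG0 : (Z - f) * G0 = G0 := by
    rw [hG0, ← mul_assoc, ← mul_assoc, hZy1]
  have G0Z : G0 * (Z - f) = G0 := star_mul_eq Zfp g1 g1 ZG0
  have fG0 : f * G0 = 0 := by
    rw [← ZG0, ← mul_assoc, mul_sub, hfZ, hf.isIdempotentElem.eq, sub_self, zero_mul]
  have G0f : G0 * f = 0 := mul_eq_zero_symm hf g1 fG0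
  have G0Z' : G0 * Z = G0 := by
    have := G0Z
    rwa [mul_sub, G0f, sub_zero] at this
  have ZG0' : Z * G0 = G0 := star_mul_eq g1 Zp g1 G0Z'
  -- the cover
  have Fp : IsStarProjection (Z - f - G0) := g1.sub_of_mul_eq_left Zfp G0Z
  have FG0 : (Z - f - G0) * G0 = 0 := by
    rw [sub_mul, sub_mul, ZG0', fG0, g1.isIdempotentElem.eq]
    abel
  obtain ⟨q0, w0, c1, c2, c3, c4, c5, c6⟩ := exists_cover hA
    (y := (Z - f - G0) * star T * G0) Fp g1 FG0
    (by rw [← mul_assoc, ← mul_assoc, Fp.isIdempotentElem.eq])
    (by rw [mul_assoc, g1.isIdempotentElem.eq])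
  have Fq0 : (Z - f - G0) * q0 = q0 := star_mul_eq c1 Fp c1 c2
  have fF : f * (Z - f - G0) = 0 := by
    rw [mul_sub, mul_sub, hfZ, hf.isIdempotentElem.eq, fG0]; simp
  have G0F : G0 * (Z - f - G0) = 0 := by
    rw [mul_sub, mul_sub, G0Z', G0f, g1.isIdempotentElem.eq]; simp
  have ZF : Z * (Z - f - G0) = Z - f - G0 := by
    rw [mul_sub, mul_sub, Zp.isIdempotentElem.eq, hZf, ZG0']
  have fq0 : f * q0 = 0 := by rw [← Fq0, ← mul_assoc, fF, zero_mul]
  have G0q0 : G0 * q0 = 0 := by rw [← Fq0, ← mul_assoc, G0F, zero_mul]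
  have Zq0 : Z * q0 = q0 := by rw [← Fq0, ← mul_assoc, ZF]
  -- the new member
  let m0 : Mem A := ⟨f, G0, q0, w0⟩
  have old : ∀ m ∈ X, m.E * S = m.E ∧ m.G * S = m.G ∧ m.q * S = m.q := dom
  have cross : ∀ a b : A, a * S = a → Z * b = b → a * b = 0 := by
    intro a b h1 h2
    rw [← h1, ← h2, mul_assoc, ← mul_assoc S, SZ, zero_mul, mul_zero]
  have cross' : ∀ a b : A, IsStarProjection a → IsStarProjection b → a * S = a → Z * b = b →
      b * a = 0 := fun a b ha hb h1 h2 => mul_eq_zero_symm ha hb (cross a b h1 h2)
  have hm0 : m0 ∉ X := by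
    intro h
    have h1 : f * S = f := (old m0 h).1
    have h2 := cross f f h1 hZf
    rw [hf.isIdempotentElem.eq] at h2
    exact hf0 h2
  have hG := hX.prop
  have mGG : ∀ m ∈ X, m.G * T * Z = 0 := fun m hm => by rw [hZ]; exact hG.dom2 m hm S Sp dom
  have mEE : ∀ m ∈ X, Z * T * m.E = 0 := fun m hm => by rw [hZ]; exact hG.dom1 m hm S Sp dom
  have domX : ∀ s, Dom (insert m0 X) s → Dom X s := fun s hs n hn =>
    hs n (Set.mem_insert_of_mem _ hn)
  have dom0 : ∀ s, Dom (insert m0 X) s → f * s = f ∧ G0 * s = G0 ∧ q0 * s = q0 := fun s hs =>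
    hs m0 (Set.mem_insert _ _)
  refine hm0 (hX.le_of_ge (y := insert m0 X) ?_ (Set.subset_insert _ _) (Set.mem_insert _ _))
  exact
    { projE := by
        rintro m (rfl | hm)
        · exact hf
        · exact hG.projE m hm
      projG := by
        rintro m (rfl | hm)
        · exact g1
        · exact hG.projG m hm
      projq := by
        rintro m (rfl | hm)
        · exact c1
        · exact hG.projq m hm
      w1 := by
        rintro m (rfl | hm)
        · exact c4
        · exact hG.w1 m hm
      w2 := by
        rintro m (rfl | hm)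
        · exact c5
        · exact hG.w2 m hm
      w3 := by
        rintro m (rfl | hm)
        · exact c6
        · exact hG.w3 m hm
      orthE := by
        rintro m (rfl | hm) n (rfl | hn) hne
        · exact absurd rfl hne
        · exact cross' _ _ (hG.projE n hn) hf (old n hn).1 hZf
        · exact cross _ _ (old m hm).1 hZf
        · exact hG.orthE m hm n hn hne
      orthG := by
        rintro m (rfl | hm) n (rfl | hn) hne
        · exact absurd rfl hne
        · exact cross' _ _ (hG.projG n hn) g1 (old n hn).2.1 ZG0'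
        · exact cross _ _ (old m hm).2.1 ZG0'
        · exact hG.orthG m hm n hn hne
      orthq := by
        rintro m (rfl | hm) n (rfl | hn) hne
        · exact absurd rfl hne
        · exact cross' _ _ (hG.projq n hn) c1 (old n hn).2.2 Zq0
        · exact cross _ _ (old m hm).2.2 Zq0
        · exact hG.orthq m hm n hn hne
      EG := by
        rintro m (rfl | hm) n (rfl | hn)
        · exact fG0
        · exact cross' _ _ (hG.projG n hn) hf (old n hn).2.1 hZf
        · exact cross _ _ (old m hm).1 ZG0'
        · exact hG.EG m hm n hn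
      Eq := by
        rintro m (rfl | hm) n (rfl | hn)
        · exact fq0
        · exact cross' _ _ (hG.projq n hn) hf (old n hn).2.2 hZf
        · exact cross _ _ (old m hm).1 Zq0
        · exact hG.Eq m hm n hn
      Gq := by
        rintro m (rfl | hm) n (rfl | hn)
        · exact G0q0
        · exact cross' _ _ (hG.projq n hn) g1 (old n hn).2.2 ZG0'
        · exact cross _ _ (old m hm).2.1 Zq0
        · exact hG.Gq m hm n hn
      off := by
        rintro m (rfl | hm) n (rfl | hn) hne
        · exact absurd rfl hne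
        · show G0 * T * n.E = 0
          rw [← G0Z', mul_assoc G0, mul_assoc G0, mEE n hn, mul_zero]
        · show m.G * T * f = 0
          rw [← hZf, ← mul_assoc, mGG m hm, zero_mul]
        · exact hG.off m hm n hn hne
      inv := by
        rintro m (rfl | hm)
        · refine ⟨k1 * star y1, ?_, ?_, ?_, ?_, ?_⟩
          · have e1 : k1 * star y1 = (k * star y) * G0 := by
              rw [hG0, ← mul_assoc, ← mul_assoc, hl, g4]
            rw [e1]
            calc ‖(k * star y) * G0‖ ≤ ‖k * star y‖ * ‖G0‖ := norm_mul_le _ _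
              _ ≤ (‖k‖ * ‖star y‖) * 1 := by
                gcongr
                · exact norm_mul_le _ _
                · exact g1.norm_le
              _ ≤ (3 / c ^ 2 * ‖T‖) * 1 := by
                rw [norm_star]
                gcongr
              _ = 3 / c ^ 2 * ‖T‖ := mul_one _
          · show f * (k1 * star y1) = k1 * star y1
            rw [← mul_assoc, g4]
          · show k1 * star y1 * G0 = k1 * star y1
            rw [hG0]
            calc k1 * star y1 * (y1 * k1 * star y1) = k1 * (star y1 * y1) * k1 * star y1 := by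
                  simp only [mul_assoc]
              _ = k1 * star y1 := by rw [g2, g4]
          · show k1 * star y1 * T * f = f
            calc k1 * star y1 * T * f = k1 * (star y1 * (Z - f)) * T * f := by rw [hy1Z]
              _ = k1 * (star y1 * y1) := by rw [hy1]; simp only [mul_assoc]
              _ = f := g2
          · show G0 * T * (k1 * star y1) = G0
            calc G0 * T * (k1 * star y1) = y1 * k1 * (star y1 * (Z - f)) * T * (f * k1) *
                  star y1 := by rw [hy1Z, g4, hG0]; simp only [mul_assoc]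
              _ = y1 * (k1 * (star y1 * y1) * k1) * star y1 := by
                  rw [hy1]; simp only [mul_assoc]
              _ = G0 := by rw [g2, g4, hG0]
        · exact hG.inv m hm
      dom1 := by
        rintro m (rfl | hm) s hs hd
        · show (1 - s) * T * f = 0
          obtain ⟨d1, d2, d3⟩ := dom0 s hd
          have d4 : (1 - s) * S = 0 := by
            have := star_mul_eq Sp hs Sp (least s hs (domX s hd))
            rw [sub_mul, one_mul, this, sub_self]
          have d5 : (1 - s) * f = 0 := by
            rw [sub_mul, one_mul, star_mul_eq hf hs hf d1, sub_self]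
          have d6 : (1 - s) * G0 = 0 := by
            rw [sub_mul, one_mul, star_mul_eq g1 hs g1 d2, sub_self]
          have d7 : T * f = S * (T * f) + f * (T * f) + G0 * y1 := by
            rw [G0y1, hy1, hZ]
            simp only [sub_mul, mul_assoc, one_mul]
            abel
          rw [mul_assoc, d7, mul_add, mul_add, ← mul_assoc (1 - s) S, d4, ← mul_assoc (1 - s) f,
            d5, ← mul_assoc (1 - s) G0, d6]
          simp
        · exact hG.dom1 m hm s hs (domX s hd)
      dom2 := by
        rintro m (rfl | hm) s hs hd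
        · show G0 * T * (1 - s) = 0
          obtain ⟨d1, d2, d3⟩ := dom0 s hd
          have d4 : (1 - s) * S = 0 := by
            have := star_mul_eq Sp hs Sp (least s hs (domX s hd))
            rw [sub_mul, one_mul, this, sub_self]
          have d5 : (1 - s) * f = 0 := by
            rw [sub_mul, one_mul, star_mul_eq hf hs hf d1, sub_self]
          have d6 : (1 - s) * G0 = 0 := by
            rw [sub_mul, one_mul, star_mul_eq g1 hs g1 d2, sub_self]
          have d8 : (1 - s) * q0 = 0 := by
            rw [sub_mul, one_mul, star_mul_eq c1 hs c1 d3, sub_self]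
          have d7 : star T * G0 = S * (star T * G0) + f * (star T * G0) + G0 * (star T * G0) +
              q0 * ((Z - f - G0) * star T * G0) := by
            rw [c3, hZ]
            simp only [sub_mul, mul_assoc, one_mul]
            abel
          have d9 : (1 - s) * (star T * G0) = 0 := by
            rw [d7, mul_add, mul_add, mul_add, ← mul_assoc (1 - s) S, d4, ← mul_assoc (1 - s) f,
              d5, ← mul_assoc (1 - s) G0, d6, ← mul_assoc (1 - s) q0, d8]
            simp
          have := congrArg star d9
          rwa [star_mul, star_mul, star_star, g1.isSelfAdjoint.star_eq,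
            hs.one_sub.isSelfAdjoint.star_eq, star_zero] at this
        · exact hG.dom2 m hm s hs (domX s hd) }

end Q177.AW
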