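import Pool.Agent.Q177.AW.Core
import Pool.Agent.Q177.AW.Small
import Pool.Agent.Q177.AW.Corner

/-! Every AW*-algebra is clean. -/

set_option autoImplicit false

universe u v

namespace Q177.AW

variable {A : Type u} [CStarAlgebra A]

theorem schur (hA : IsAWStarAlgebra A) {E G q T Y W p v Z : A} (hB : Block T E G q W Y)
    (hZ : Z = 1 - (E + G + q))
    (pp : p * p = p) (Zp : Z * p = p) (pZ : p * Z = p) (Zv : Z * v = v) (vZ : v * Z = v)
    (hv1 : (Z * T * Z - p) * v = Z) (hv2 : v * (Z * T * Z - p) = Z) :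
    ∃ u e : A, IsUnit u ∧ e * e = e ∧ T = u + e := by
  obtain ⟨S, hS⟩ : ∃ S, S = E + G + q := ⟨_, rfl⟩
  have GE : G * E = 0 := mul_eq_zero_symm hB.projE hB.projG hB.EG
  have qE : q * E = 0 := mul_eq_zero_symm hB.projE hB.projq hB.Eq
  have qG : q * G = 0 := mul_eq_zero_symm hB.projG hB.projq hB.Gq
  have EE : E * E = E := hB.projE.isIdempotentElem.eq
  have GG : G * G = G := hB.projG.isIdempotentElem.eq
  have qq : q * q = q := hB.projq.isIdempotentElem.eq
  have EG := hB.EG
  have Eq := hB.Eq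
  have Gq := hB.Gq
  have SS : S * S = S := by
    rw [hS]
    simp only [add_mul, mul_add, EE, GG, qq, GE, qE, qG, EG, Eq, Gq, add_zero, zero_add]
  have SE : S * E = E := by
    rw [hS]; simp only [add_mul, EE, GE, qE, add_zero]
  have GS : G * S = G := by
    rw [hS]; simp only [mul_add, GE, GG, Gq, add_zero, zero_add]
  rw [← hS] at hZ
  have SZ : S * Z = 0 := by rw [hZ, mul_sub, SS]; simp
  have ZS : Z * S = 0 := by rw [hZ, sub_mul, SS]; simp
  have ZZ : Z * Z = Z := by rw [hZ, mul_sub, sub_mul, sub_mul, SS]; simp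
  have SZ1 : S + Z = 1 := by rw [hZ]; abel
  have low : Z * T * E = 0 := by rw [hZ, hS]; exact hB.low
  have right : G * T * Z = 0 := by rw [hZ, hS]; exact hB.right
  have Sv : S * v = 0 := by rw [← Zv, ← mul_assoc, SZ, zero_mul]
  have vS : v * S = 0 := by rw [← vZ, mul_assoc, ZS, mul_zero]
  have vTE : v * T * E = 0 := by rw [← vZ, mul_assoc, mul_assoc, ← mul_assoc Z, low, mul_zero]
  have GTv : G * T * v = 0 := by rw [← Zv, ← mul_assoc, right, zero_mul]
  have YS : Y * S = Y := by rw [← hB.YG, mul_assoc, GS]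
  have SY : S * Y = Y := by rw [← hB.EY, ← mul_assoc, SE]
  obtain ⟨T1, hT1⟩ : ∃ T1, T1 = S * T * S - S * T * v * T * S := ⟨_, rfl⟩
  have ST1 : S * T1 = T1 := by
    rw [hT1, mul_sub]; simp only [← mul_assoc, SS]
  have T1S : T1 * S = T1 := by
    rw [hT1, sub_mul]; simp only [mul_assoc, SS]
  obtain ⟨P1, N1, h1, h2, h3, h4, h5, h6, h7⟩ := core hA (T := T1) (y := Y) (W := W)
    hB.projE hB.projG hB.projq EG Eq Gq (by rw [← hS]; exact ST1) (by rw [← hS]; exact T1S)
    hB.EY hB.YG (by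
      rw [hT1]
      calc Y * (S * T * S - S * T * v * T * S) * E
          = (Y * S) * T * (S * E) - (Y * S) * T * (v * T * (S * E)) := by
            simp only [mul_sub, sub_mul, mul_assoc]
        _ = E := by rw [YS, SE, vTE, mul_zero, sub_zero, hB.YTE]) (by
      rw [hT1]
      calc G * (S * T * S - S * T * v * T * S) * Y
          = (G * S) * T * (S * Y) - ((G * S) * T * v) * T * (S * Y) := by
            simp only [mul_sub, sub_mul, mul_assoc]
        _ = G := by rw [GS, SY, GTv, zero_mul, zero_mul, sub_zero, hB.GTY]) hB.w1 hB.w3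
  rw [← hS] at h2 h3 h4 h5 h6 h7
  obtain ⟨D, hD⟩ : ∃ D, D = Z * T * Z - p := ⟨_, rfl⟩
  rw [← hD] at hv1 hv2
  have ZD : Z * D = D := by rw [hD, mul_sub, Zp, ← mul_assoc, ← mul_assoc, ZZ]
  have DZ : D * Z = D := by rw [hD, sub_mul, pZ, mul_assoc, ZZ]
  obtain ⟨X, hX⟩ : ∃ X, X = T1 - P1 := ⟨_, rfl⟩
  rw [← hX] at h6 h7
  have SX : S * X = X := by rw [hX, mul_sub, ST1, h2]
  have XS : X * S = X := by rw [hX, sub_mul, T1S, h3]
  have Xv : X * v = 0 := by rw [← XS, mul_assoc, Sv, mul_zero]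
  have vX : v * X = 0 := by rw [← SX, ← mul_assoc, vS, zero_mul]
  have DN : D * N1 = 0 := by rw [← DZ, ← h4, mul_assoc, ← mul_assoc Z, ZS, zero_mul, mul_zero]
  have ND : N1 * D = 0 := by rw [← h5, ← ZD, mul_assoc, ← mul_assoc S, SZ, zero_mul, mul_zero]
  have hu1 : IsUnit (X + D) := by
    refine ⟨⟨X + D, N1 + v, ?_, ?_⟩, rfl⟩
    · rw [add_mul, mul_add, mul_add, h6, Xv, DN, hv1, add_zero, zero_add, SZ1]
    · rw [add_mul, mul_add, mul_add, h7, vX, ND, hv2, add_zero, zero_add, SZ1]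
  have hu2 : IsUnit (1 + S * T * v) := isUnit_of_sq_zero (by
    calc S * T * v * (S * T * v) = S * T * (v * S) * T * v := by simp only [mul_assoc]
      _ = 0 := by rw [vS]; simp)
  have hu3 : IsUnit (1 + v * T * S) := isUnit_of_sq_zero (by
    calc v * T * S * (v * T * S) = v * T * (S * v) * T * S := by simp only [mul_assoc]
      _ = 0 := by rw [Sv]; simp)
  refine ⟨(1 + S * T * v) * (X + D) * (1 + v * T * S), P1 + p, (hu2.mul hu1).mul hu3, ?_, ?_⟩
  · have a1 : P1 * p = 0 := by rw [← h3, ← Zp, mul_assoc, ← mul_assoc S, SZ, zero_mul, mul_zero]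
    have a2 : p * P1 = 0 := by rw [← h2, ← pZ, mul_assoc, ← mul_assoc Z, ZS, zero_mul, mul_zero]
    rw [add_mul, mul_add, mul_add, h1, a1, a2, pp]
    simp
  · have b1 : (1 + S * T * v) * (X + D) = X + D + S * T * Z := by
      rw [add_mul, one_mul, mul_add, mul_assoc _ v X, vX, mul_assoc _ v D, hv2]
      simp
    have b2 : (X + D + S * T * Z) * (v * T * S) = Z * T * S + S * T * v * T * S := by
      calc (X + D + S * T * Z) * (v * T * S) = X * v * (T * S) + D * v * (T * S)
            + S * T * (Z * v) * (T * S) := by simp only [add_mul, mul_assoc]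
        _ = Z * T * S + S * T * v * T * S := by
            rw [Xv, hv1, Zv, zero_mul, zero_add]; simp only [mul_assoc]
    have b3 : T = S * T * S + S * T * Z + Z * T * S + Z * T * Z := by
      calc T = (S + Z) * T * (S + Z) := by rw [SZ1]; simp
        _ = S * T * S + S * T * Z + Z * T * S + Z * T * Z := by
            simp only [add_mul, mul_add]; abel
    rw [mul_add, mul_one, b1, b2, hX, hD, hT1]
    conv_lhs => rw [b3]
    abel

theorem isClean (hA : IsAWStarAlgebra A) : IsClean A := by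
  intro T
  obtain ⟨c, hc0, hc1, hc2⟩ : ∃ c : ℝ, 0 < c ∧ c ≤ 1 / 200 ∧ c * ‖T‖ ≤ 1 / 1536 := by
    refine ⟨min (1 / 200) (1 / (1536 * (‖T‖ + 1))), by positivity, min_le_left _ _, ?_⟩
    calc min (1 / 200) (1 / (1536 * (‖T‖ + 1))) * ‖T‖ ≤ (1 / (1536 * (‖T‖ + 1))) * ‖T‖ := by
          gcongr
          exact min_le_right _ _
      _ ≤ 1 / 1536 := by
          rw [div_mul_eq_mul_div, div_le_div_iff₀ (by positivity) (by norm_num)]
          nlinarith [norm_nonneg T]
  obtain ⟨X, hX⟩ := exists_maximal T (3 / c ^ 2 * ‖T‖)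
  obtain ⟨E, G, q, W, Y, hB, dom, least⟩ := block_of_good hA hX.prop
  have small := small_of_maximal hA hc0 hX hB dom least
  have hS : IsStarProjection (E + G + q) := by
    refine (hB.projE.add hB.projG hB.EG).add hB.projq ?_
    rw [add_mul, hB.Eq, hB.Gq, add_zero]
  obtain ⟨p, v, g1, g2, g3, g4, g5, g6, g7⟩ := corner_unit hA hS.one_sub hc1 hc2 small
  exact schur hA hB rfl g1 g2 g3 g4 g5 g6 g7

end Q177.AW
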