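import Pool.Agent.Q177.AW.Defs

/-! Maximal commutative subalgebras and spectral projections. -/

set_option autoImplicit false

universe u

namespace Q177.AW

variable {A : Type u} [CStarAlgebra A]

/-- A maximal commutative self-adjoint subalgebra containing a commuting self-adjoint set. -/
theorem exists_masa (X : Set A) (hs : ∀ x ∈ X, star x ∈ X) (hc : ∀ x ∈ X, ∀ y ∈ X, x * y = y * x) :
    ∃ B : StarSubalgebra ℂ A, IsMasa B ∧ X ⊆ B ∧
      ∀ a : A, (∀ b ∈ B, a * b = b * a) → a ∈ B := by
  obtain ⟨M, hXM, hM⟩ := zorn_subset_nonempty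
    {Y : Set A | (∀ x ∈ Y, star x ∈ Y) ∧ ∀ x ∈ Y, ∀ y ∈ Y, x * y = y * x} (by
      intro c hc1 hc2 hne
      refine ⟨⋃₀ c, ⟨?_, ?_⟩, fun s hs => Set.subset_sUnion_of_mem hs⟩
      · rintro x ⟨s, hs, hx⟩
        exact ⟨s, hs, (hc1 hs).1 x hx⟩
      · rintro x ⟨s, hs, hx⟩ y ⟨t, ht, hy⟩
        rcases hc2.total hs ht with h | h
        · exact (hc1 ht).2 x (h hx) y hy
        · exact (hc1 hs).2 x hx y (h hy)) X ⟨hs, hc⟩
  have hM1 := hM.prop.1
  have hM2 := hM.prop.2
  have hmax : ∀ y : A, (∀ x ∈ M, y * x = x * y) → y ∈ M := by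
    -- first self-adjoint elements
    have hsa : ∀ y : A, star y = y → (∀ x ∈ M, y * x = x * y) → y ∈ M := by
      intro y hy hyc
      have h1 : insert y M ∈ {Y : Set A | (∀ x ∈ Y, star x ∈ Y) ∧
          ∀ x ∈ Y, ∀ y ∈ Y, x * y = y * x} := by
        refine ⟨?_, ?_⟩
        · rintro x (rfl | hx)
          · rw [hy]; exact Set.mem_insert _ _
          · exact Set.mem_insert_of_mem _ (hM1 x hx)
        · rintro x (rfl | hx) z (rfl | hz)
          · rfl
          · exact hyc z hz
          · exact (hyc x hx).symm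
          · exact hM2 x hx z hz
      exact hM.le_of_ge h1 (Set.subset_insert _ _) (Set.mem_insert _ _)
    intro y hyc
    have hyc' : ∀ x ∈ M, star y * x = x * star y := by
      intro x hx
      have := congrArg star (hyc _ (hM1 x hx))
      simpa [star_mul] using this.symm
    have h2 : y + star y ∈ M := by
      refine hsa _ (by simp [add_comm]) fun x hx => ?_
      rw [add_mul, mul_add, hyc x hx, hyc' x hx]
    have hcomm : y * star y = star y * y := by
      have h3 := hyc _ h2
      rw [mul_add, add_mul] at h3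
      exact add_left_cancel h3
    have h4 : insert y (insert (star y) M) ∈ {Y : Set A | (∀ x ∈ Y, star x ∈ Y) ∧
          ∀ x ∈ Y, ∀ y ∈ Y, x * y = y * x} := by
      refine ⟨?_, ?_⟩
      · rintro x (rfl | rfl | hx)
        · exact Set.mem_insert_of_mem _ (Set.mem_insert _ _)
        · rw [star_star]; exact Set.mem_insert _ _
        · exact Set.mem_insert_of_mem _ (Set.mem_insert_of_mem _ (hM1 x hx))
      · rintro x (rfl | rfl | hx) z (rfl | rfl | hz)
        · rfl
        · exact hcomm
        · exact hyc z hz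
        · exact hcomm.symm
        · rfl
        · exact hyc' z hz
        · exact (hyc x hx).symm
        · exact (hyc' x hx).symm
        · exact hM2 x hx z hz
    exact hM.le_of_ge h4 (fun z hz => Set.mem_insert_of_mem _ (Set.mem_insert_of_mem _ hz))
      (Set.mem_insert _ _)
  let B : StarSubalgebra ℂ A := StarSubalgebra.centralizer ℂ M
  have hBM : ∀ y : A, y ∈ B ↔ y ∈ M := by
    intro y
    constructor
    · intro hy
      refine hmax y fun x hx => ?_
      exact ((StarSubalgebra.mem_centralizer_iff ℂ).1 hy x hx).1.symm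
    · intro hy
      refine (StarSubalgebra.mem_centralizer_iff ℂ).2 fun x hx => ⟨hM2 x hx y hy, ?_⟩
      exact hM2 _ (hM1 x hx) y hy
  refine ⟨B, ⟨fun x hx y hy => hM2 x ((hBM x).1 hx) y ((hBM y).1 hy), ?_⟩,
    fun x hx => (hBM x).2 (hXM hx), ?_⟩
  · intro C hC hBC y hy
    rw [hBM]
    exact hmax y fun x hx => hC y hy x (hBC ((hBM x).2 hx))
  · intro a ha
    rw [hBM]
    exact hmax a fun x hx => ha x ((hBM x).2 hx)

/-- Finite linear combinations of a partition of unity by projections of `B`. -/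
def Simple (B : StarSubalgebra ℂ A) (x : A) : Prop :=
  ∃ (ι : Type) (_ : Fintype ι) (_ : DecidableEq ι) (q : ι → A) (l : ι → ℂ),
    (∀ i, IsStarProjection (q i)) ∧ (∀ i, q i ∈ B) ∧ (∀ i j, i ≠ j → q i * q j = 0) ∧
      ∑ i, q i = 1 ∧ x = ∑ i, l i • q i

end Q177.AW
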