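import Mathlib

/-! The algebraic lemma. -/

set_option autoImplicit false

universe u

namespace Q177.AW

variable {A : Type u} [Ring A]

theorem ring_lemma {E G R T y ω ω' n g rW ν : A}
    (EE : E * E = E) (GG : G * G = G) (RR : R * R = R)
    (EG : E * G = 0) (GE : G * E = 0) (ER : E * R = 0) (RE : R * E = 0) (GR : G * R = 0)
    (RG : R * G = 0)
    (ST : (E + G + R) * T = T) (TS : T * (E + G + R) = T) (RTE : R * T * E = 0)
    (Ey : E * y = y) (yG : y * G = y) (yTE : y * T * E = E) (GTy : G * T * y = G)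
    (Gω : G * ω = ω) (ωR : ω * R = ω) (Rω' : R * ω' = ω') (ω'G : ω' * G = ω') (ωω : ω' * ω = R)
    (nn : n * n = n) (gg : g * g = g) (ng : n * g = 0) (gn : g * n = 0) (hng : n + g = R)
    (RrW : R * rW = rW) (rWg : rW * g = rW) (hrW : R * T * R * rW = g)
    (Rν : R * ν = ν) (νR : ν * R = ν)
    (hν1 : (g + R * T * R * n - n + R * T * ω) * ν = R)
    (hν2 : ν * (g + R * T * R * n - n + R * T * ω) = R) :
    ∃ P N : A, P * P = P ∧ (E + G + R) * P = P ∧ P * (E + G + R) = P ∧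
      (E + G + R) * N = N ∧ N * (E + G + R) = N ∧ (T - P) * N = E + G + R ∧
      N * (T - P) = E + G + R := by
  -- basic facts
  have Rn : R * n = n := by rw [← hng, add_mul, nn, gn, add_zero]
  have nR : n * R = n := by rw [← hng, mul_add, nn, ng, add_zero]
  have Rg : R * g = g := by rw [← hng, add_mul, gg, ng, zero_add]
  have gR : g * R = g := by rw [← hng, mul_add, gg, gn, zero_add]
  have rWR : rW * R = rW := by rw [← rWg, mul_assoc, gR]
  obtain ⟨F, hF⟩ : ∃ F, F = G + R := ⟨_, rfl⟩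
  have FF : F * F = F := by rw [hF, add_mul, mul_add, mul_add, GG, GR, RG, RR]; abel
  have EF : E * F = 0 := by rw [hF, mul_add, EG, ER, add_zero]
  have FE : F * E = 0 := by rw [hF, add_mul, GE, RE, add_zero]
  have GF : G * F = G := by rw [hF, mul_add, GG, GR, add_zero]
  have FG : F * G = G := by rw [hF, add_mul, GG, RG, add_zero]
  have RF : R * F = R := by rw [hF, mul_add, RR, RG, zero_add]
  have FR : F * R = R := by rw [hF, add_mul, RR, GR, zero_add]
  have hS : E + G + R = E + F := by rw [hF]; abel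
  rw [hS] at ST TS ⊢
  -- the maps
  obtain ⟨Λ, hΛ⟩ : ∃ Λ, Λ = rW + n + ω := ⟨_, rfl⟩
  have ΛR : Λ * R = Λ := by rw [hΛ, add_mul, add_mul, rWR, nR, ωR]
  have FΛ : F * Λ = Λ := by
    have h1 : F * rW = rW := by rw [← RrW, ← mul_assoc, FR]
    have h2 : F * n = n := by rw [← Rn, ← mul_assoc, FR]
    have h3 : F * ω = ω := by rw [← Gω, ← mul_assoc, FG]
    rw [hΛ, mul_add, mul_add, h1, h2, h3]
  have ω'rW : ω' * rW = 0 := by rw [← ω'G, ← RrW, mul_assoc, ← mul_assoc G, GR, zero_mul, mul_zero]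
  have ω'n : ω' * n = 0 := by rw [← ω'G, ← Rn, mul_assoc, ← mul_assoc G, GR, zero_mul, mul_zero]
  have ω'Λ : ω' * Λ = R := by rw [hΛ, mul_add, mul_add, ω'rW, ω'n, ωω]; simp
  have Rω : R * ω = 0 := by rw [← Gω, ← mul_assoc, RG, zero_mul]
  have RΛ : R * Λ = rW + n := by rw [hΛ, mul_add, mul_add, RrW, Rn, Rω, add_zero]
  have ω'F : ω' * F = ω' := by rw [hF, mul_add, ω'G, ← ω'G, mul_assoc, GR]; simp
  have Fω' : F * ω' = ω' := by rw [← Rω', ← mul_assoc, FR]
  obtain ⟨K, hK⟩ : ∃ K, K = Λ * g * ω' := ⟨_, rfl⟩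
  have Λg : Λ * g = rW + ω * g := by rw [hΛ, add_mul, add_mul, rWg, ng, add_zero]
  have KK : K * K = K := by
    rw [hK]
    calc Λ * g * ω' * (Λ * g * ω') = Λ * g * (ω' * Λ) * g * ω' := by simp only [mul_assoc]
      _ = Λ * (g * R * g) * ω' := by rw [ω'Λ]; simp only [mul_assoc]
      _ = Λ * g * ω' := by rw [gR, gg]
  have FK : F * K = K := by rw [hK, ← mul_assoc, ← mul_assoc, FΛ]
  have KF : K * F = K := by rw [hK, mul_assoc, ω'F]
  have RK : R * K = rW * ω' := by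
    rw [hK, Λg, ← mul_assoc, mul_add, RrW, ← mul_assoc, Rω, zero_mul, add_zero]
  obtain ⟨Q, hQ⟩ : ∃ Q, Q = F - K := ⟨_, rfl⟩
  have QQ : Q * Q = Q := by rw [hQ, sub_mul, mul_sub, mul_sub, FF, FK, KF, KK]; abel
  have FQ : F * Q = Q := by rw [hQ, mul_sub, FF, FK]
  have QF : Q * F = Q := by rw [hQ, sub_mul, FF, KF]
  obtain ⟨ρ, hρ⟩ : ∃ ρ, ρ = R * T * F - R * Q := ⟨_, rfl⟩
  have Rρ : R * ρ = ρ := by
    rw [hρ, mul_sub, ← mul_assoc, ← mul_assoc, ← mul_assoc, RR]
  have ρF : ρ * F = ρ := by rw [hρ, sub_mul, mul_assoc _ F F, FF, mul_assoc R Q F, QF]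
  have RQ : R * Q = R - rW * ω' := by rw [hQ, mul_sub, RF, RK]
  have ρΛ : ρ * Λ = g + R * T * R * n - n + R * T * ω := by
    have h1 : R * T * F * Λ = R * T * rW + R * T * n + R * T * ω := by
      rw [mul_assoc, FΛ, hΛ, mul_add, mul_add]
    have h2 : R * T * rW = g := by rw [← hrW, mul_assoc (R * T), RrW]
    have h3 : R * T * n = R * T * R * n := by rw [mul_assoc (R * T), Rn]
    have h4 : (R - rW * ω') * Λ = n := by
      rw [sub_mul, RΛ, mul_assoc, ω'Λ, rWR]; abel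
    rw [hρ, RQ, sub_mul, h1, h2, h3, h4]
    abel
  rw [← ρΛ] at hν1 hν2
  obtain ⟨σ, hσ⟩ : ∃ σ, σ = Λ * ν := ⟨_, rfl⟩
  have ρσ : ρ * σ = R := by rw [hσ, ← mul_assoc, hν1]
  have Fσ : F * σ = σ := by rw [hσ, ← mul_assoc, FΛ]
  have σR : σ * R = σ := by rw [hσ, mul_assoc, νR]
  have σρΛ : σ * ρ * Λ = Λ := by rw [hσ, mul_assoc, mul_assoc, hν2, ΛR]
  obtain ⟨pr, hpr⟩ : ∃ pr, pr = F - σ * ρ := ⟨_, rfl⟩
  have prΛ : pr * Λ = 0 := by rw [hpr, sub_mul, FΛ, σρΛ, sub_self]
  have ρpr : ρ * pr = 0 := by rw [hpr, mul_sub, ρF, ← mul_assoc, ρσ, Rρ, sub_self]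
  have prF : pr * F = pr := by rw [hpr, sub_mul, FF, mul_assoc, ρF]
  have Fpr : F * pr = pr := by rw [hpr, mul_sub, FF, ← mul_assoc, Fσ]
  obtain ⟨θ, hθ⟩ : ∃ θ, θ = F - Λ * ω' := ⟨_, rfl⟩
  have θΛ : θ * Λ = 0 := by rw [hθ, sub_mul, FΛ, mul_assoc, ω'Λ, ΛR, sub_self]
  have θF : θ * F = θ := by rw [hθ, sub_mul, FF, mul_assoc, ω'F]
  have θσ : θ * σ = 0 := by rw [hσ, ← mul_assoc, θΛ, zero_mul]
  have θpr : θ * pr = θ := by rw [hpr, mul_sub, θF, ← mul_assoc, θσ, zero_mul, sub_zero]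
  have prθ : pr * θ = pr := by rw [hθ, mul_sub, prF, ← mul_assoc, prΛ, zero_mul, sub_zero]
  obtain ⟨G2, hG2⟩ : ∃ G2, G2 = G - ω * ω' := ⟨_, rfl⟩
  have G2G : G2 * G = G2 := by rw [hG2, sub_mul, GG, mul_assoc, ω'G]
  have GG2 : G * G2 = G2 := by rw [hG2, mul_sub, GG, ← mul_assoc, Gω]
  have G2ω : G2 * ω = 0 := by rw [hG2, sub_mul, Gω, mul_assoc, ωω, ωR, sub_self]
  have ω'G2 : ω' * G2 = 0 := by rw [hG2, mul_sub, ω'G, ← mul_assoc, ωω, Rω', sub_self]
  have G2G2 : G2 * G2 = G2 := by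
    calc G2 * G2 = (G - ω * ω') * G2 := by rw [← hG2]
      _ = G2 := by rw [sub_mul, GG2, mul_assoc, ω'G2, mul_zero, sub_zero]
  have G2R : G2 * R = 0 := by rw [← G2G, mul_assoc, GR, mul_zero]
  have RG2 : R * G2 = 0 := by rw [← GG2, ← mul_assoc, RG, zero_mul]
  have G2ω' : G2 * ω' = 0 := by rw [← Rω', ← mul_assoc, G2R, zero_mul]
  have ωG2 : ω * G2 = 0 := by rw [← ωR, mul_assoc, RG2, mul_zero]
  have ω'ω' : ω' * ω' = 0 := by
    calc ω' * ω' = ω' * G * (R * ω') := by rw [ω'G, Rω']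
      _ = ω' * (G * R) * ω' := by simp only [mul_assoc]
      _ = 0 := by rw [GR]; simp
  have ωωz : ω * ω = 0 := by
    calc ω * ω = ω * R * (G * ω) := by rw [ωR, Gω]
      _ = ω * (R * G) * ω := by simp only [mul_assoc]
      _ = 0 := by rw [RG]; simp
  have FG2 : F * G2 = G2 := by rw [← GG2, ← mul_assoc, FG]
  obtain ⟨x, hx⟩ : ∃ x, x = G * T * E := ⟨_, rfl⟩
  have Gx : G * x = x := by rw [hx, ← mul_assoc, ← mul_assoc, GG]
  have xE : x * E = x := by rw [hx, mul_assoc, EE]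
  have xy : x * y = G := by rw [hx, mul_assoc, Ey, GTy]
  have yx : y * x = E := by
    calc y * x = (y * G) * T * E := by rw [hx]; simp only [mul_assoc]
      _ = E := by rw [yG, yTE]
  obtain ⟨j, hj⟩ : ∃ j, j = y * (G2 + ω) * θ := ⟨_, rfl⟩
  obtain ⟨j', hj'⟩ : ∃ j', j' = pr * (G2 + ω') * x := ⟨_, rfl⟩
  have jσ : j * σ = 0 := by rw [hj, mul_assoc, θσ, mul_zero]
  have jF : j * F = j := by rw [hj, mul_assoc, θF]
  have Ej : E * j = j := by rw [hj, ← mul_assoc, ← mul_assoc, Ey]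
  have jpr : j * pr = j := by rw [hj, mul_assoc, θpr]
  have Fj' : F * j' = j' := by rw [hj', ← mul_assoc, ← mul_assoc, Fpr]
  have j'E : j' * E = j' := by rw [hj', mul_assoc, xE]
  have ρj' : ρ * j' = 0 := by rw [hj', ← mul_assoc, ← mul_assoc, ρpr, zero_mul, zero_mul]
  have jj' : j * j' = E := by
    have h1 : θ * (G2 + ω') = G2 + ω' := by
      rw [hθ, sub_mul, mul_add, FG2, Fω', mul_assoc, mul_add, ω'G2, ω'ω']
      simp
    have h2 : (G2 + ω) * (G2 + ω') = G := by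
      rw [add_mul, mul_add, mul_add, G2G2, G2ω', ωG2, hG2]; abel
    calc j * j' = y * (G2 + ω) * (θ * pr) * (G2 + ω') * x := by
          rw [hj, hj']; simp only [mul_assoc]
      _ = y * (G2 + ω) * (θ * (G2 + ω')) * x := by rw [θpr]; simp only [mul_assoc]
      _ = y * ((G2 + ω) * (G2 + ω')) * x := by rw [h1]; simp only [mul_assoc]
      _ = E := by rw [h2, yG, yx]
  have j'j : j' * j = pr := by
    have h1 : (G2 + ω') * G = G2 + ω' := by rw [add_mul, G2G, ω'G]
    have h2 : (G2 + ω') * (G2 + ω) = G2 + R := by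
      rw [add_mul, mul_add, mul_add, G2G2, G2ω, ω'G2, ωω]; abel
    have h3 : (G2 + R) * θ = θ := by
      have h4 : (G2 + R) * Λ = Λ - ω := by
        have h5 : G2 * Λ = 0 := by
          rw [hΛ, mul_add, mul_add, ← RrW, ← mul_assoc, G2R, ← Rn, ← mul_assoc, G2R, G2ω]
          simp
        rw [add_mul, h5, RΛ, hΛ]; abel
      have h6 : (G2 + R) * F = G2 + R := by
        rw [add_mul, RF, hF, mul_add, G2G, G2R, add_zero]
      rw [hθ, mul_sub, h6, ← mul_assoc, h4, sub_mul, hG2, hF]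
      abel
    calc j' * j = pr * (G2 + ω') * (x * y) * (G2 + ω) * θ := by
          rw [hj, hj']; simp only [mul_assoc]
      _ = pr * ((G2 + ω') * G * (G2 + ω)) * θ := by rw [xy]; simp only [mul_assoc]
      _ = pr * ((G2 + R) * θ) := by rw [h1, h2]; simp only [mul_assoc]
      _ = pr := by rw [h3, prθ]
  -- the column operation
  obtain ⟨κ, hκ⟩ : ∃ κ, κ = y * T * F - y * Q := ⟨_, rfl⟩
  have Eκ : E * κ = κ := by
    rw [hκ, mul_sub, ← mul_assoc, ← mul_assoc, ← mul_assoc, Ey]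
  have κF : κ * F = κ := by rw [hκ, sub_mul, mul_assoc _ F F, FF, mul_assoc y Q F, QF]
  obtain ⟨b, hb⟩ : ∃ b, b = E * T * F - E * T * κ := ⟨_, rfl⟩
  have Eb : E * b = b := by rw [hb, mul_sub, ← mul_assoc, ← mul_assoc, ← mul_assoc, ← mul_assoc, EE]
  have bF : b * F = b := by rw [hb, sub_mul, mul_assoc _ F F, FF, mul_assoc _ κ F, κF]
  obtain ⟨X, hX⟩ : ∃ X, X = (b - j) * pr := ⟨_, rfl⟩
  have EX : E * X = X := by rw [hX, ← mul_assoc, mul_sub, Eb, Ej]
  have XF : X * F = X := by rw [hX, mul_assoc, prF]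
  have XE : X * E = 0 := by rw [← XF, mul_assoc, FE, mul_zero]
  have XX : X * X = 0 := by
    calc X * X = X * E * X := by rw [mul_assoc, EX]
      _ = 0 := by rw [XE, zero_mul]
  have QE : Q * E = 0 := by rw [← QF, mul_assoc, FE, mul_zero]
  have QX : Q * X = 0 := by rw [← EX, ← mul_assoc, QE, zero_mul]
  have prQ : pr * Q = pr := by
    rw [hQ, mul_sub, prF, hK, ← mul_assoc, ← mul_assoc, prΛ, zero_mul, zero_mul, sub_zero]
  have XQ : X * Q = X := by rw [hX, mul_assoc, prQ]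
  obtain ⟨P, hP⟩ : ∃ P, P = Q + X := ⟨_, rfl⟩
  have PP : P * P = P := by rw [hP, add_mul, mul_add, mul_add, QQ, QX, XQ, XX]; abel
  have EQ : E * Q = 0 := by rw [← FQ, ← mul_assoc, EF, zero_mul]
  have FX : F * X = 0 := by rw [← EX, ← mul_assoc, FE, zero_mul]
  have SP : (E + F) * P = P := by
    rw [hP, add_mul, mul_add, mul_add, EQ, EX, FQ, FX]; abel
  have PS : P * (E + F) = P := by
    rw [hP, add_mul, mul_add, mul_add, QE, QF, XE, XF]; abel
  -- first step
  have TE : T * E = E * T * E + x := by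
    have h1 : T * E = E * T * E + (G * T * E + R * T * E) := by
      conv_lhs => rw [← ST, hF]
      simp only [add_mul, mul_assoc]
    rw [h1, RTE, add_zero, hx]
  have PE : P * E = 0 := by rw [hP, add_mul, QE, XE, add_zero]
  have Tκ : T * κ = E * T * κ + (G * T * F - G * Q) := by
    have h1 : T * κ = (T * E) * κ := by rw [mul_assoc, Eκ]
    rw [h1, TE, add_mul]
    congr 1
    · rw [mul_assoc, Eκ]
    · have h2 : x * κ = G * T * F - G * Q := by
        rw [hκ, mul_sub, ← mul_assoc, ← mul_assoc, ← mul_assoc, xy]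
      exact h2
  have M1 : (T - P) * (1 - κ) = E * T * E + x + b * σ * ρ + j + ρ := by
    have h1 : P * κ = 0 := by rw [← Eκ, ← mul_assoc, PE, zero_mul]
    have h2 : T = T * E + T * F := by rw [← mul_add, TS]
    have h3 : T * F = E * T * F + G * T * F + R * T * F := by
      have h4 : T = E * T + G * T + R * T := by
        have h5 : (E + G + R) * T = T := by rw [hS, ST]
        rw [← add_mul, ← add_mul, h5]
      have h6 : T * F = (E * T + G * T + R * T) * F := by rw [← h4]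
      rw [h6, add_mul, add_mul]
    have h4 : P = G * Q + R * Q + X := by
      rw [hP, ← add_mul, ← hF, FQ]
    have h5 : b - X = b * σ * ρ + j := by
      rw [hX, sub_mul, jpr, hpr, mul_sub, bF, ← mul_assoc]
      abel
    have h6 : (T - P) * (1 - κ) = T - P - T * κ := by
      rw [sub_mul, mul_sub, mul_sub, h1, mul_one, mul_one]; abel
    have h7 : T - P - T * κ = E * T * E + x + (b - X) + ρ := by
      have h8 : T - P - T * κ = T * E + T * F - (G * Q + R * Q + X) - T * κ := by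
        rw [← h2, ← h4]
      rw [h8, Tκ, TE, h3, hb, hρ]
      abel
    rw [h6, h7, h5]
    abel
  have RM : R * (E * T * E + x + b * σ * ρ + j + ρ) = ρ := by
    have h1 : R * (E * T * E) = 0 := by
      rw [← mul_assoc, ← mul_assoc, RE, zero_mul, zero_mul]
    have h2 : R * x = 0 := by rw [← Gx, ← mul_assoc, RG, zero_mul]
    have h3 : R * (b * σ * ρ) = 0 := by
      rw [← Eb, mul_assoc, mul_assoc, ← mul_assoc, RE, zero_mul]
    have h4 : R * j = 0 := by rw [← Ej, ← mul_assoc, RE, zero_mul]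
    rw [mul_add, mul_add, mul_add, mul_add, h1, h2, h3, h4, Rρ]
    simp
  have M2 : (1 - b * σ) * (E * T * E + x + b * σ * ρ + j + ρ) = E * T * E + x + j + ρ := by
    have h1 : b * σ * (E * T * E + x + b * σ * ρ + j + ρ) = b * σ * ρ := by
      calc b * σ * (E * T * E + x + b * σ * ρ + j + ρ)
          = b * (σ * R) * (E * T * E + x + b * σ * ρ + j + ρ) := by rw [σR]
        _ = b * σ * (R * (E * T * E + x + b * σ * ρ + j + ρ)) := by simp only [mul_assoc]
        _ = b * σ * ρ := by rw [RM]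
    rw [sub_mul, one_mul, h1]
    abel
  have GM : G * (E * T * E + x + j + ρ) = x := by
    have h1 : G * (E * T * E) = 0 := by
      rw [← mul_assoc, ← mul_assoc, GE, zero_mul, zero_mul]
    have h4 : G * j = 0 := by rw [← Ej, ← mul_assoc, GE, zero_mul]
    have h5 : G * ρ = 0 := by rw [← Rρ, ← mul_assoc, GR, zero_mul]
    rw [mul_add, mul_add, mul_add, h1, Gx, h4, h5]
    simp
  have M3 : (1 - E * T * y) * (E * T * E + x + j + ρ) = x + j + ρ := by
    have h1 : E * T * y * (E * T * E + x + j + ρ) = E * T * E := by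
      calc E * T * y * (E * T * E + x + j + ρ)
          = E * T * (y * G) * (E * T * E + x + j + ρ) := by rw [yG]
        _ = E * T * (y * (G * (E * T * E + x + j + ρ))) := by simp only [mul_assoc]
        _ = E * T * E := by rw [GM, yx]
    rw [sub_mul, one_mul, h1]
    abel
  have hMall : (1 - E * T * y) * ((1 - b * σ) * ((T - P) * (1 - κ))) = x + j + ρ := by
    rw [M1, M2, M3]
  -- the diagonal part
  have xj' : x * j' = 0 := by rw [← xE, mul_assoc, ← Fj', ← mul_assoc E, EF, zero_mul, mul_zero]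
  have xσ : x * σ = 0 := by rw [← xE, mul_assoc, ← Fσ, ← mul_assoc E, EF, zero_mul, mul_zero]
  have jy : j * y = 0 := by rw [← jF, mul_assoc, ← Ey, ← mul_assoc F, FE, zero_mul, mul_zero]
  have ρy : ρ * y = 0 := by rw [← ρF, mul_assoc, ← Ey, ← mul_assoc F, FE, zero_mul, mul_zero]
  have yj : y * j = 0 := by rw [← yG, mul_assoc, ← Ej, ← mul_assoc G, GE, zero_mul, mul_zero]
  have yρ : y * ρ = 0 := by rw [← yG, mul_assoc, ← Rρ, ← mul_assoc G, GR, zero_mul, mul_zero]
  have j'x : j' * x = 0 := by rw [← j'E, mul_assoc, ← Gx, ← mul_assoc E, EG, zero_mul, mul_zero]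
  have j'ρ : j' * ρ = 0 := by rw [← j'E, mul_assoc, ← Rρ, ← mul_assoc E, ER, zero_mul, mul_zero]
  have σx : σ * x = 0 := by rw [← σR, mul_assoc, ← Gx, ← mul_assoc R, RG, zero_mul, mul_zero]
  have σj : σ * j = 0 := by rw [← σR, mul_assoc, ← Ej, ← mul_assoc R, RE, zero_mul, mul_zero]
  have D1 : (x + j + ρ) * (y + j' + σ) = E + F := by
    simp only [add_mul, mul_add, xy, xj', xσ, jy, jj', jσ, ρy, ρj', ρσ]
    rw [hF]; abel
  have D2 : (y + j' + σ) * (x + j + ρ) = E + F := by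
    simp only [add_mul, mul_add, yx, yj, yρ, j'x, j'j, j'ρ, σx, σj]
    rw [hpr]; abel
  -- squares of the nilpotents
  have κκ : κ * κ = 0 := by
    calc κ * κ = κ * F * (E * κ) := by rw [κF, Eκ]
      _ = κ * (F * E) * κ := by simp only [mul_assoc]
      _ = 0 := by rw [FE]; simp
  have bσbσ : (b * σ) * (b * σ) = 0 := by
    calc (b * σ) * (b * σ) = b * (σ * R) * (E * b) * σ := by rw [σR, Eb]; simp only [mul_assoc]
      _ = b * σ * (R * E) * b * σ := by simp only [mul_assoc]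
      _ = 0 := by rw [RE]; simp
  have aa : (E * T * y) * (E * T * y) = 0 := by
    calc (E * T * y) * (E * T * y) = E * T * (y * G) * (E * T * y) := by rw [yG]
      _ = E * T * y * (G * E) * T * y := by simp only [mul_assoc]
      _ = 0 := by rw [GE]; simp
  have inv : ∀ a : A, a * a = 0 → (1 - a) * (1 + a) = 1 ∧ (1 + a) * (1 - a) = 1 := by
    intro a ha
    constructor
    · rw [sub_mul, mul_add, mul_add, ha]; simp
    · rw [add_mul, mul_sub, mul_sub, ha]; simp
  -- `S` absorbs everything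
  have Sκ : (E + F) * κ = κ := by rw [add_mul, Eκ, ← Eκ, ← mul_assoc F, FE]; simp
  have κS : κ * (E + F) = κ := by
    rw [mul_add, κF]
    nth_rewrite 1 [← κF]
    rw [mul_assoc, FE]; simp
  have bE : b * E = 0 := by rw [← bF, mul_assoc, FE, mul_zero]
  have Fb : F * b = 0 := by rw [← Eb, ← mul_assoc, FE, zero_mul]
  have σS : σ * (E + F) = σ := by
    rw [mul_add, ← σR, mul_assoc, RE, mul_assoc, RF]; simp
  have Sbσ : (E + F) * (b * σ) = b * σ := by
    rw [← mul_assoc, add_mul, Eb, Fb, add_zero]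
  have bσS : (b * σ) * (E + F) = b * σ := by rw [mul_assoc, σS]
  have yS : y * (E + F) = y := by
    rw [mul_add, ← yG, mul_assoc, GE, mul_assoc, GF]; simp
  have Sa : (E + F) * (E * T * y) = E * T * y := by
    rw [add_mul, ← mul_assoc, ← mul_assoc, EE, ← mul_assoc F, ← mul_assoc F, FE]; simp
  have aS : (E * T * y) * (E + F) = E * T * y := by rw [mul_assoc, yS]
  obtain ⟨S, hSS⟩ : ∃ S, S = E + F := ⟨_, rfl⟩
  rw [← hSS] at ST TS SP PS D1 D2 Sκ κS σS Sbσ bσS yS Sa aS ⊢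
  have hSS2 : S * S = S := by rw [hSS, add_mul, mul_add, mul_add, EE, EF, FE, FF]; abel
  obtain ⟨a, ha⟩ : ∃ a, a = E * T * y := ⟨_, rfl⟩
  obtain ⟨d, hd⟩ : ∃ d, d = b * σ := ⟨_, rfl⟩
  obtain ⟨D, hD⟩ : ∃ D, D = x + j + ρ := ⟨_, rfl⟩
  obtain ⟨D', hD'⟩ : ∃ D', D' = y + j' + σ := ⟨_, rfl⟩
  rw [← ha] at aa Sa aS
  rw [← hd] at bσbσ Sbσ bσS
  rw [← ha, ← hd, ← hD] at hMall
  rw [← hD, ← hD'] at D1 D2
  have SD' : S * D' = D' := by
    have h1 : S * y = y := by
      rw [hSS, add_mul, Ey, ← Ey, ← mul_assoc F, FE]; simp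
    have h2 : S * j' = j' := by
      rw [hSS, add_mul, Fj', ← Fj', ← mul_assoc E, EF]; simp
    have h3 : S * σ = σ := by
      rw [hSS, add_mul, Fσ, ← Fσ, ← mul_assoc E, EF]; simp
    rw [hD', mul_add, mul_add, h1, h2, h3]
  have D'S : D' * S = D' := by
    have h2 : j' * S = j' := by
      rw [hSS, mul_add, j'E]
      nth_rewrite 2 [← j'E]
      rw [mul_assoc, EF]; simp
    rw [hD', add_mul, add_mul, yS, h2, σS]
  obtain ⟨k1, k2⟩ := inv κ κκ
  obtain ⟨a1, a2⟩ := inv a aa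
  obtain ⟨d1, d2⟩ := inv d bσbσ
  have hTP : (T - P) * (1 - κ) = (1 + d) * (1 + a) * D := by
    rw [← hMall]
    calc (T - P) * (1 - κ) = 1 * ((T - P) * (1 - κ)) := (one_mul _).symm
      _ = ((1 + d) * ((1 + a) * (1 - a)) * (1 - d)) * ((T - P) * (1 - κ)) := by
          rw [a2, mul_one, d2]
      _ = (1 + d) * (1 + a) * ((1 - a) * ((1 - d) * ((T - P) * (1 - κ)))) := by
          simp only [mul_assoc]
  have Sa1 : S * (1 - a) = (1 - a) * S := by rw [mul_sub, sub_mul, Sa, aS]; simp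
  have Sd1 : S * (1 - d) = (1 - d) * S := by rw [mul_sub, sub_mul, Sbσ, bσS]; simp
  have Sκ1 : S * (1 - κ) = (1 - κ) * S := by rw [mul_sub, sub_mul, Sκ, κS]; simp
  have Sκ2 : S * (1 + κ) = (1 + κ) * S := by rw [mul_add, add_mul, Sκ, κS]; simp
  refine ⟨P, (1 - κ) * D' * ((1 - a) * (1 - d)), PP, SP, PS, ?_, ?_, ?_, ?_⟩
  · calc S * ((1 - κ) * D' * ((1 - a) * (1 - d)))
        = (S * (1 - κ)) * D' * ((1 - a) * (1 - d)) := by simp only [mul_assoc]
      _ = (1 - κ) * (S * D') * ((1 - a) * (1 - d)) := by rw [Sκ1]; simp only [mul_assoc]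
      _ = (1 - κ) * D' * ((1 - a) * (1 - d)) := by rw [SD']
  · calc (1 - κ) * D' * ((1 - a) * (1 - d)) * S
        = (1 - κ) * D' * ((1 - a) * ((1 - d) * S)) := by simp only [mul_assoc]
      _ = (1 - κ) * D' * (((1 - a) * S) * (1 - d)) := by rw [← Sd1]; simp only [mul_assoc]
      _ = (1 - κ) * (D' * S) * ((1 - a) * (1 - d)) := by rw [← Sa1]; simp only [mul_assoc]
      _ = (1 - κ) * D' * ((1 - a) * (1 - d)) := by rw [D'S]
  · calc (T - P) * ((1 - κ) * D' * ((1 - a) * (1 - d)))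
        = ((T - P) * (1 - κ)) * D' * ((1 - a) * (1 - d)) := by simp only [mul_assoc]
      _ = (1 + d) * (1 + a) * (D * D') * ((1 - a) * (1 - d)) := by
          rw [hTP]; simp only [mul_assoc]
      _ = (1 + d) * (1 + a) * (S * (1 - a)) * (1 - d) := by rw [D1]; simp only [mul_assoc]
      _ = (1 + d) * ((1 + a) * (1 - a)) * (S * (1 - d)) := by rw [Sa1]; simp only [mul_assoc]
      _ = ((1 + d) * (1 - d)) * S := by rw [a2, Sd1]; simp only [mul_assoc, one_mul]
      _ = S := by rw [d2, one_mul]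
  · have h1 : (1 - κ) * D' * ((1 - a) * (1 - d)) * (T - P) * (1 - κ) = (1 - κ) * S := by
      calc (1 - κ) * D' * ((1 - a) * (1 - d)) * (T - P) * (1 - κ)
          = (1 - κ) * D' * ((1 - a) * ((1 - d) * ((T - P) * (1 - κ)))) := by
            simp only [mul_assoc]
        _ = (1 - κ) * S := by rw [hMall, mul_assoc, D2]
    calc (1 - κ) * D' * ((1 - a) * (1 - d)) * (T - P)
        = (1 - κ) * D' * ((1 - a) * (1 - d)) * (T - P) * ((1 - κ) * (1 + κ)) := by
          rw [k1, mul_one]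
      _ = ((1 - κ) * D' * ((1 - a) * (1 - d)) * (T - P) * (1 - κ)) * (1 + κ) := by
          simp only [mul_assoc]
      _ = (1 - κ) * (S * (1 + κ)) := by rw [h1, mul_assoc]
      _ = ((1 - κ) * (1 + κ)) * S := by rw [Sκ2, mul_assoc]
      _ = S := by rw [k1, one_mul]

end Q177.AW
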