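import Pool.Agent.Q177.AW.Masa

/-! Spectral projections in a maximal commutative subalgebra generated by its projections. -/

set_option autoImplicit false

universe u

namespace Q177.AW

variable {A : Type u} [CStarAlgebra A]

attribute [local instance] CStarAlgebra.spectralOrder CStarAlgebra.spectralOrderedRing

theorem Simple.binary {B : StarSubalgebra ℂ A} {x y : A} (hB : ∀ x ∈ B, ∀ y ∈ B, x * y = y * x)
    (hx : Simple B x) (hy : Simple B y) :
    ∃ (ι : Type) (_ : Fintype ι) (_ : DecidableEq ι) (q : ι → A) (l m : ι → ℂ),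
    (∀ i, IsStarProjection (q i)) ∧ (∀ i, q i ∈ B) ∧ (∀ i j, i ≠ j → q i * q j = 0) ∧
      ∑ i, q i = 1 ∧ x = ∑ i, l i • q i ∧ y = ∑ i, m i • q i := by
  obtain ⟨ι, _, _, q, l, h1, h2, h3, h4, rfl⟩ := hx
  obtain ⟨κ, _, _, r, m, g1, g2, g3, g4, rfl⟩ := hy
  have hc : ∀ i j, q i * r j = r j * q i := fun i j => hB _ (h2 i) _ (g2 j)
  refine ⟨ι × κ, inferInstance, inferInstance, fun p => q p.1 * r p.2, fun p => l p.1,
    fun p => m p.2, fun p => (h1 _).mul (g1 _) (hc _ _), fun p => B.mul_mem (h2 _) (g2 _), ?_,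
    ?_, ?_, ?_⟩
  · rintro ⟨i, j⟩ ⟨i', j'⟩ hne
    by_cases hi : i = i'
    · subst hi
      have hj : j ≠ j' := fun h => hne (by rw [h])
      show q i * r j * (q i * r j') = 0
      rw [hc i j', ← mul_assoc, mul_assoc (q i) (r j) (r j'), g3 _ _ hj]
      simp
    · show q i * r j * (q i' * r j') = 0
      rw [hc i j, mul_assoc, ← mul_assoc (q i), h3 _ _ hi]
      simp
  · rw [Fintype.sum_prod_type]
    simp only [← Finset.mul_sum, g4, mul_one, h4]
  · rw [Fintype.sum_prod_type]
    refine Finset.sum_congr rfl fun i _ => ?_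
    simp only [← Finset.smul_sum, ← Finset.mul_sum, g4, mul_one]
  · rw [Fintype.sum_prod_type_right]
    refine Finset.sum_congr rfl fun j _ => ?_
    simp only [← Finset.smul_sum, ← Finset.sum_mul, h4, one_mul]

theorem sum_mul_sum_orth {ι : Type} [Fintype ι] [DecidableEq ι] {q : ι → A} (l m : ι → ℂ)
    (h1 : ∀ i, IsStarProjection (q i)) (h3 : ∀ i j, i ≠ j → q i * q j = 0) :
    (∑ i, l i • q i) * ∑ i, m i • q i = ∑ i, (l i * m i) • q i := by
  rw [Finset.sum_mul]
  refine Finset.sum_congr rfl fun i _ => ?_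
  rw [Finset.mul_sum, Finset.sum_eq_single i]
  · rw [smul_mul_smul_comm, (h1 i).isIdempotentElem.eq]
  · intro j _ hj
    rw [smul_mul_smul_comm, h3 i j hj.symm, smul_zero]
  · intro h; exact absurd (Finset.mem_univ i) h

theorem simple_of_mem_adjoin {B : StarSubalgebra ℂ A} (hB : ∀ x ∈ B, ∀ y ∈ B, x * y = y * x)
    {x : A} (hx : x ∈ StarAlgebra.adjoin ℂ {p : A | p ∈ B ∧ IsStarProjection p}) : Simple B x := by
  induction hx using StarAlgebra.adjoin_induction with
  | mem p hp =>
    refine ⟨Bool, inferInstance, inferInstance, fun b => if b then p else 1 - p,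
      fun b => if b then 1 else 0, ?_, ?_, ?_, ?_, ?_⟩
    · intro i
      cases i
      · simpa using hp.2.one_sub
      · simpa using hp.2
    · intro i
      cases i
      · simpa using B.sub_mem B.one_mem hp.1
      · simpa using hp.1
    · intro i j hij
      cases i <;> cases j
      · exact absurd rfl hij
      · simpa using hp.2.one_sub_mul_self
      · simpa using hp.2.mul_one_sub_self
      · exact absurd rfl hij
    · simp
    · simp
  | algebraMap c =>
    refine ⟨Unit, inferInstance, inferInstance, fun _ => 1, fun _ => c, ?_, ?_, ?_, ?_, ?_⟩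
    · intro i; exact IsStarProjection.one A
    · intro i; exact B.one_mem
    · intro i j hij; exact absurd rfl hij
    · simp
    · simp [Algebra.algebraMap_eq_smul_one]
  | add x y _ _ hx hy =>
    obtain ⟨ι, _, _, q, l, m, h1, h2, h3, h4, rfl, rfl⟩ := Simple.binary hB hx hy
    refine ⟨ι, inferInstance, inferInstance, q, fun i => l i + m i, h1, h2, h3, h4, ?_⟩
    simp [add_smul, Finset.sum_add_distrib]
  | mul x y _ _ hx hy =>
    obtain ⟨ι, _, _, q, l, m, h1, h2, h3, h4, rfl, rfl⟩ := Simple.binary hB hx hy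
    exact ⟨ι, inferInstance, inferInstance, q, fun i => l i * m i, h1, h2, h3, h4,
      sum_mul_sum_orth l m h1 h3⟩
  | star x _ hx =>
    obtain ⟨ι, _, _, q, l, h1, h2, h3, h4, rfl⟩ := hx
    refine ⟨ι, inferInstance, inferInstance, q, fun i => star (l i), h1, h2, h3, h4, ?_⟩
    simp [star_sum, star_smul, (h1 _).isSelfAdjoint.star_eq]

theorem norm_sum_le {ι : Type} [Fintype ι] [DecidableEq ι] {q : ι → A} (l : ι → ℂ)
    (h1 : ∀ i, IsStarProjection (q i)) (h3 : ∀ i j, i ≠ j → q i * q j = 0) (h4 : ∑ i, q i = 1)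
    {M : ℝ} (hM : 0 ≤ M) (hl : ∀ i, ‖l i‖ ≤ M) : ‖∑ i, l i • q i‖ ≤ M := by
  rcases subsingleton_or_nontrivial A with hA | hA
  · rw [Subsingleton.elim (∑ i, l i • q i) 0, norm_zero]; exact hM
  have hstar : star (∑ i, l i • q i) = ∑ i, (star (l i)) • q i := by
    simp [star_sum, star_smul, (h1 _).isSelfAdjoint.star_eq]
  have h5 : star (∑ i, l i • q i) * (∑ i, l i • q i) ≤ algebraMap ℝ A (M ^ 2) := by
    rw [hstar, sum_mul_sum_orth _ _ h1 h3, Algebra.algebraMap_eq_smul_one, ← h4, Finset.smul_sum]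
    refine Finset.sum_le_sum fun i _ => ?_
    have h6 : star (l i) * l i = ((‖l i‖ ^ 2 : ℝ) : ℂ) := by
      rw [← starRingEnd_apply, ← Complex.normSq_eq_conj_mul_self, Complex.normSq_eq_norm_sq]
    rw [h6]
    have h7 : ((‖l i‖ ^ 2 : ℝ) : ℂ) • q i = (‖l i‖ ^ 2 : ℝ) • q i := by
      exact (RCLike.real_smul_eq_coe_smul (K := ℂ) _ _).symm
    rw [h7]
    have h8 : 0 ≤ q i := by
      have := star_mul_self_nonneg (q i)
      rwa [(h1 i).isSelfAdjoint.star_eq, (h1 i).isIdempotentElem.eq] at this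
    exact smul_le_smul_of_nonneg_right (by gcongr; exact hl i) h8
  have h9 : ‖star (∑ i, l i • q i) * (∑ i, l i • q i)‖ ≤ M ^ 2 := by
    have h10 := CStarAlgebra.norm_le_norm_of_nonneg_of_le (star_mul_self_nonneg _) h5
    refine h10.trans ?_
    rw [norm_algebraMap']
    simp
  rw [CStarRing.norm_star_mul_self] at h9
  nlinarith [norm_nonneg (∑ i, l i • q i)]

/-- Spectral projections: for `h` in a maximal commutative subalgebra `B` and `t > 0` there is a
projection `f` in `B` under which `h` is invertible, and `h` is small under `1 - f`. -/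
theorem exists_spectral (hA : IsAWStarAlgebra A) {B : StarSubalgebra ℂ A} (hB : IsMasa B)
    (hB' : ∀ a : A, (∀ b ∈ B, a * b = b * a) → a ∈ B)
    {h : A} (hh : h ∈ B) {t : ℝ} (ht : 0 < t) :
    ∃ f k : A, IsStarProjection f ∧ f ∈ B ∧ k ∈ B ∧ h * k = f ∧ f * k = k ∧ ‖k‖ ≤ 3 / t ∧
      ‖h * (1 - f)‖ ≤ t := by
  classical
  have hε : 0 < t / 8 := by positivity
  obtain ⟨s, hs1, hs2⟩ := Metric.mem_closure_iff.1 (hA.masa B hB hh) (t / 8) hε
  obtain ⟨ι, _, _, q, l, h1, h2, h3, h4, rfl⟩ := simple_of_mem_adjoin hB.1 hs1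
  rw [dist_eq_norm] at hs2
  set s := ∑ i, l i • q i with hs
  have hsB : s ∈ B := B.sum_mem fun i _ => B.smul_mem (h2 i) _
  -- the projection
  let χ : ι → ℂ := fun i => if t / 2 ≤ ‖l i‖ then 1 else 0
  let r : ι → ℂ := fun i => if t / 2 ≤ ‖l i‖ then (l i)⁻¹ else 0
  set f := ∑ i, χ i • q i with hf
  set s' := ∑ i, r i • q i with hs'
  have hfB : f ∈ B := B.sum_mem fun i _ => B.smul_mem (h2 i) _
  have hs'B : s' ∈ B := B.sum_mem fun i _ => B.smul_mem (h2 i) _
  have hfp : IsStarProjection f := by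
    constructor
    · show f * f = f
      rw [hf, sum_mul_sum_orth _ _ h1 h3]
      refine Finset.sum_congr rfl fun i _ => ?_
      congr 1
      simp only [χ]
      split_ifs <;> simp
    · show star f = f
      rw [hf, star_sum]
      refine Finset.sum_congr rfl fun i _ => ?_
      rw [star_smul, (h1 i).isSelfAdjoint.star_eq]
      congr 1
      simp only [χ]
      split_ifs <;> simp
  have hss' : s * s' = f := by
    rw [hs, hs', hf, sum_mul_sum_orth _ _ h1 h3]
    refine Finset.sum_congr rfl fun i _ => ?_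
    congr 1
    simp only [χ, r]
    split_ifs with h
    · have : l i ≠ 0 := by
        intro h0
        rw [h0, norm_zero] at h
        linarith
      exact mul_inv_cancel₀ this
    · simp
  have hfs' : f * s' = s' := by
    rw [hs', hf, sum_mul_sum_orth _ _ h1 h3]
    refine Finset.sum_congr rfl fun i _ => ?_
    congr 1
    simp only [χ, r]
    split_ifs <;> simp
  have hs'n : ‖s'‖ ≤ 2 / t := by
    refine norm_sum_le _ h1 h3 h4 (by positivity) fun i => ?_
    simp only [r]
    split_ifs with h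
    · rw [norm_inv, ← inv_div]
      exact inv_anti₀ (by positivity) h
    · rw [norm_zero]; positivity
  have hsf : ‖s * (1 - f)‖ ≤ t / 2 := by
    have h5 : s * (1 - f) = ∑ i, (l i * (1 - χ i)) • q i := by
      have : (1 : A) - f = ∑ i, (1 - χ i) • q i := by
        simp only [sub_smul, one_smul, Finset.sum_sub_distrib, h4, hf]
      rw [this, hs, sum_mul_sum_orth _ _ h1 h3]
    rw [h5]
    refine norm_sum_le _ h1 h3 h4 (by positivity) fun i => ?_
    simp only [χ]
    split_ifs with h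
    · simp; positivity
    · simp only [sub_zero, mul_one]
      exact (not_le.1 h).le
  have h1n : ‖(1 : A)‖ ≤ 1 := (IsStarProjection.one A).norm_le
  set w := (h - s) * s' with hw
  have hdB : h - s ∈ B := B.sub_mem hh hsB
  have hwB : w ∈ B := B.mul_mem hdB hs'B
  have hwn : ‖w‖ ≤ 1 / 4 := by
    calc ‖w‖ ≤ ‖h - s‖ * ‖s'‖ := norm_mul_le _ _
      _ ≤ (t / 8) * (2 / t) := by gcongr
      _ = 1 / 4 := by field_simp; norm_num
  have hwn' : ‖-w‖ < 1 := by rw [norm_neg]; linarith
  let u : Aˣ := Units.oneSub (-w) hwn'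
  have hu : (u : A) = 1 + w := by simp [u]
  set v : A := ((u⁻¹ : Aˣ) : A) with hv
  have huv : (1 + w) * v = 1 := by rw [← hu, hv]; simp
  have hvB : v ∈ B := by
    refine hB' v fun b hb => ?_
    have h5 : Commute b (u : A) := by
      rw [hu]
      exact (Commute.one_right b).add_right (hB.1 _ hb _ hwB)
    exact (h5.units_inv_right).symm.eq
  have hvn : ‖v‖ ≤ 4 / 3 := by
    have h5 : v = 1 - w * v := by
      rw [add_mul, one_mul] at huv
      exact eq_sub_of_add_eq huv
    have h6 : ‖v‖ ≤ 1 + 1 / 4 * ‖v‖ := by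
      calc ‖v‖ = ‖1 - w * v‖ := by rw [← h5]
        _ ≤ ‖(1 : A)‖ + ‖w * v‖ := norm_sub_le _ _
        _ ≤ 1 + 1 / 4 * ‖v‖ := by
          gcongr
          exact (norm_mul_le _ _).trans (by gcongr)
    linarith
  have hfw : f * w = w := by
    rw [hw, ← mul_assoc, hB.1 f hfB _ hdB, mul_assoc, hfs']
  refine ⟨f, s' * v, hfp, hfB, B.mul_mem hs'B hvB, ?_, ?_, ?_, ?_⟩
  · have h5 : h * s' = f * (1 + w) := by
      rw [mul_add, mul_one, hfw, hw, sub_mul, hss']
      abel
    rw [← mul_assoc, h5, mul_assoc, huv, mul_one]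
  · rw [← mul_assoc, hfs']
  · calc ‖s' * v‖ ≤ ‖s'‖ * ‖v‖ := norm_mul_le _ _
      _ ≤ (2 / t) * (4 / 3) := by gcongr
      _ ≤ 3 / t := by
        rw [div_mul_div_comm, div_le_div_iff₀ (by positivity) ht]
        nlinarith
  · have h5 : h * (1 - f) = s * (1 - f) + (h - s) * (1 - f) := by
      rw [← add_mul]; congr 1; abel
    rw [h5]
    calc ‖s * (1 - f) + (h - s) * (1 - f)‖ ≤ ‖s * (1 - f)‖ + ‖(h - s) * (1 - f)‖ := norm_add_le _ _
      _ ≤ t / 2 + (t / 8) * 1 := by
        gcongr
        exact (norm_mul_le _ _).trans (by gcongr; exact hfp.one_sub.norm_le)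
      _ ≤ t := by linarith

/-- Spectral projections of a normal element. -/
theorem exists_spectral' (hA : IsAWStarAlgebra A) {h : A} (hh : star h * h = h * star h)
    {t : ℝ} (ht : 0 < t) :
    ∃ f k : A, IsStarProjection f ∧ h * k = f ∧ k * h = f ∧ f * k = k ∧ k * f = k ∧
      f * h = h * f ∧ ‖k‖ ≤ 3 / t ∧ ‖h * (1 - f)‖ ≤ t := by
  obtain ⟨B, hB, hX, hB'⟩ := exists_masa {h, star h} (by
    rintro x (rfl | rfl)
    · simp
    · simp) (by
    rintro x (rfl | rfl) y (rfl | rfl)
    · rfl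
    · exact hh.symm
    · exact hh
    · rfl)
  have hhB : h ∈ B := hX (by simp)
  obtain ⟨f, k, hf, hfB, hkB, h1, h2, h3, h4⟩ := exists_spectral hA hB hB' hhB ht
  exact ⟨f, k, hf, h1, by rw [hB.1 k hkB h hhB, h1], h2, by rw [hB.1 k hkB f hfB, h2],
    hB.1 f hfB h hhB, h3, h4⟩

end Q177.AW
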